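import Pool.Agent.H646.CR.Stm

set_option autoImplicit false

namespace Pool.Agent.H358.CRgrp

open Pool.Agent.H646.CR

lemma nil_single (f : ℕ → A) (n : ℕ) : nil f (Finsupp.single n 1) = f n := by
  unfold nil
  rw [Finsupp.linearCombination_single, one_smul]

lemma conj (k : Fin 3) (f : ℕ → A) (hf : ∀ n, nil f (f n) = 0)
    (h : auts k = AddEquiv.toMultiplicative (tv f hf)) (n : ℕ) :
    (SemidirectProduct.inr (FreeGroup.of k) : GG) * cc n * (SemidirectProduct.inr (FreeGroup.of k))⁻¹
      = SemidirectProduct.inl (Multiplicative.ofAdd (Finsupp.single n 1 + f n)) := by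
  unfold cc
  have h1 : phi (FreeGroup.of k) = AddEquiv.toMultiplicative (tv f hf) := by
    unfold phi
    rw [FreeGroup.lift_apply_of, h]
  have h2 := SemidirectProduct.inl_aut (φ := phi) (FreeGroup.of k)
    (Multiplicative.ofAdd (Finsupp.single n 1))
  rw [← map_inv, ← h2, h1]
  congr 1
  show Multiplicative.ofAdd (tv f hf (Finsupp.single n 1)) = _
  congr 1
  show Finsupp.single n 1 + nil f (Finsupp.single n 1) = _
  rw [nil_single]

lemma cc_mul (i j : ℕ) : cc i * cc j =
    SemidirectProduct.inl (Multiplicative.ofAdd (Finsupp.single i 1 + Finsupp.single j 1)) := by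
  unfold cc
  rw [← map_mul]
  rfl

theorem holds : S_grp := by
  have h0 : ∀ n, QQ 0 * cc n * (QQ 0)⁻¹ =
      SemidirectProduct.inl (Multiplicative.ofAdd (Finsupp.single n 1 + fa n)) :=
    fun n => conj 0 fa fa_nil rfl n
  have h1 : ∀ n, QQ 1 * cc n * (QQ 1)⁻¹ =
      SemidirectProduct.inl (Multiplicative.ofAdd (Finsupp.single n 1 + fb n)) :=
    fun n => conj 1 fb fb_nil rfl n
  have h2 : ∀ n, QQ 2 * cc n * (QQ 2)⁻¹ =
      SemidirectProduct.inl (Multiplicative.ofAdd (Finsupp.single n 1 + fc n)) :=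
    fun n => conj 2 fc fc_nil rfl n
  refine ⟨?_, ?_, ?_, ?_, ?_, ?_, ?_, ?_⟩
  · intro i j
    rw [cc_mul, cc_mul, add_comm]
  · intro i
    rw [cc_mul, ← Finsupp.single_add]
    have : (1 : ZMod 2) + 1 = 0 := by decide
    rw [this, Finsupp.single_zero]
    exact map_one _
  · intro i
    rw [h0, fa, if_neg (by omega), add_zero]
    rfl
  · intro i
    rw [h0, fa, if_pos (by omega), cc_mul, add_comm, show 2 * i + 1 - 1 = 2 * i by omega]
  · intro i
    rw [h1, fb, if_pos (by omega), cc_mul]
  · intro i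
    rw [h1, fb, if_neg (by omega), add_zero]
    rfl
  · intro i
    rw [h2, fc, if_pos (by omega), cc_mul]
  · intro i
    rw [h2, fc, if_neg (by omega), add_zero]
    rfl

end Pool.Agent.H358.CRgrp
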