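import Pool.Agent.H646.CR.Stm

set_option autoImplicit false
set_option linter.unusedSectionVars false

namespace Pool.Agent.H358.CR

namespace RT

variable {V : Type} [SeminormedAddCommGroup V] [InnerProductSpace ℝ V]
variable {S : Type} [CommRing S] [Algebra ℝ S]

/-- the quadratic form -/
noncomputable def f (φ : S →ₐ[ℝ] Module.End ℝ V) (s : S) (v : V) : ℝ := inner ℝ (φ s v) v

variable (φ : S →ₐ[ℝ] Module.End ℝ V)

lemma f_add (s t : S) (v : V) : f φ (s + t) v = f φ s v + f φ t v := by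
  unfold f; rw [map_add, LinearMap.add_apply, inner_add_left]

lemma f_sub (s t : S) (v : V) : f φ (s - t) v = f φ s v - f φ t v := by
  unfold f; rw [map_sub, LinearMap.sub_apply, inner_sub_left]

lemma f_sum {ι : Type} (t : Finset ι) (g : ι → S) (v : V) :
    f φ (∑ i ∈ t, g i) v = ∑ i ∈ t, f φ (g i) v := by
  classical
  induction t using Finset.induction_on with
  | empty => simp [f]
  | insert a t ha ih => rw [Finset.sum_insert ha, Finset.sum_insert ha, f_add, ih]

lemma f_one (v : V) : f φ 1 v = ‖v‖ ^ 2 := by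
  unfold f; rw [map_one, Module.End.one_apply, real_inner_self_eq_norm_sq]

/-- all elements are symmetric -/
def Sym : Prop := ∀ (s : S) (v w : V), inner ℝ (φ s v) w = inner ℝ v (φ s w)

variable {φ}

lemma f_nonneg (hs : Sym φ) {s : S} (h : s * s = s) (v : V) : 0 ≤ f φ s v := by
  unfold f
  have h1 : φ s v = φ s (φ s v) := by
    rw [← Module.End.mul_apply, ← map_mul, h]
  rw [h1, hs]
  exact real_inner_self_nonneg

lemma norm_le (hs : Sym φ) {s : S} (h : s * s = s) (v : V) : ‖φ s v‖ ≤ ‖v‖ := by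
  have h1 : φ s (φ s v) = φ s v := by
    rw [← Module.End.mul_apply, ← map_mul, h]
  have h2 : ‖φ s v‖ * ‖φ s v‖ ≤ ‖v‖ * ‖φ s v‖ := by
    rw [← real_inner_self_eq_norm_mul_norm, hs, h1]
    exact real_inner_le_norm _ _
  rcases (norm_nonneg (φ s v)).eq_or_lt with h3 | h3
  · rw [← h3]; exact norm_nonneg v
  · exact le_of_mul_le_mul_right h2 h3

lemma pert (hs : Sym φ) {s : S} (h : s * s = s) {v w : V} (hv : ‖v‖ = 1) (hw : ‖w‖ = 1)
    {r : ℝ} (hr : ‖w - v‖ ≤ r) : |f φ s w - f φ s v| ≤ 2 * r := by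
  have h1 : f φ s w - f φ s v = inner ℝ (φ s (w - v)) w + inner ℝ (φ s v) (w - v) := by
    unfold f
    rw [map_sub, inner_sub_left, inner_sub_right]; ring
  rw [h1]
  have h2 : |inner ℝ (φ s (w - v)) w| ≤ r := by
    refine (abs_real_inner_le_norm _ _).trans ?_
    rw [hw, mul_one]
    exact (norm_le hs h _).trans hr
  have h3 : |inner ℝ (φ s v) (w - v)| ≤ r := by
    refine (abs_real_inner_le_norm _ _).trans ?_
    have h4 := norm_le hs h v
    rw [hv] at h4
    calc ‖φ s v‖ * ‖w - v‖ ≤ 1 * ‖w - v‖ := mul_le_mul_of_nonneg_right h4 (norm_nonneg _)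
      _ ≤ r := by rw [one_mul]; exact hr
  calc _ ≤ |inner ℝ (φ s (w - v)) w| + |inner ℝ (φ s v) (w - v)| := abs_add_le _ _
    _ ≤ 2 * r := by linarith

/-- intertwining relation -/
def SC (φ : S →ₐ[ℝ] Module.End ℝ V) (u : Module.End ℝ V) (a b : S) : Prop :=
  u * φ a = φ b * u

lemma SC.mul {u : Module.End ℝ V} {a b a' b' : S} (h : SC φ u a b) (h' : SC φ u a' b') :
    SC φ u (a * a') (b * b') := by
  unfold SC at *
  rw [map_mul, map_mul, ← mul_assoc, h, mul_assoc, h', mul_assoc]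

lemma SC.add {u : Module.End ℝ V} {a b a' b' : S} (h : SC φ u a b) (h' : SC φ u a' b') :
    SC φ u (a + a') (b + b') := by
  unfold SC at *
  rw [map_add, map_add, mul_add, add_mul, h, h']

lemma SC.sub {u : Module.End ℝ V} {a b a' b' : S} (h : SC φ u a b) (h' : SC φ u a' b') :
    SC φ u (a - a') (b - b') := by
  unfold SC at *
  rw [map_sub, map_sub, mul_sub, sub_mul, h, h']

lemma SC.one (u : Module.End ℝ V) : SC φ u 1 1 := by
  unfold SC; rw [map_one, mul_one, one_mul]

lemma SC.zero (u : Module.End ℝ V) : SC φ u 0 0 := by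
  unfold SC; rw [map_zero, mul_zero, zero_mul]

lemma SC.smul {u : Module.End ℝ V} {a b : S} (c : ℝ) (h : SC φ u a b) :
    SC φ u (c • a) (c • b) := by
  unfold SC at *
  rw [map_smul, map_smul, mul_smul_comm, smul_mul_assoc, h]

lemma SC.sum {u : Module.End ℝ V} {a b : ℕ → S} (n : ℕ) (h : ∀ i, SC φ u (a i) (b i)) :
    SC φ u (∑ i ∈ Finset.range n, a i) (∑ i ∈ Finset.range n, b i) := by
  induction n with
  | zero => simpa using SC.zero u
  | succ n ih => rw [Finset.sum_range_succ, Finset.sum_range_succ]; exact ih.add (h n)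

lemma SC.f_eq {u : Module.End ℝ V} (hu : ∀ v w, inner ℝ (u v) (u w) = inner ℝ v w) {a b : S}
    (h : SC φ u a b) (v : V) : f φ b (u v) = f φ a v := by
  unfold f
  rw [← Module.End.mul_apply, ← h, Module.End.mul_apply, hu]

/-! ### the projections -/

section proj

variable (X Y : ℕ → S)

/-- `O n` -/
def OO : ℕ → S
  | 0 => 1
  | n + 1 => OO n * (X n * Y n)

def PP (n : ℕ) : S := ∑ i ∈ Finset.range n, OO X Y i * ((1 - X i) * Y i)
def QQ (n : ℕ) : S := ∑ i ∈ Finset.range n, OO X Y i * (X i * (1 - Y i))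
def DD (n : ℕ) : S := ∑ i ∈ Finset.range n, OO X Y i * ((1 - X i) * (1 - Y i))

variable {X Y} (hX : ∀ i, X i * X i = X i) (hY : ∀ i, Y i * Y i = Y i)

include hX hY in
lemma OO_idem (n : ℕ) : OO X Y n * OO X Y n = OO X Y n := by
  induction n with
  | zero => simp [OO]
  | succ n ih =>
    simp only [OO]
    linear_combination (X n * Y n) ^ 2 * ih + OO X Y n * Y n ^ 2 * hX n + OO X Y n * X n * hY n

lemma idem_compl {x : S} (h : x * x = x) : (1 - x) * (1 - x) = 1 - x := by
  linear_combination h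

lemma idem_mul {x y : S} (h : x * x = x) (h' : y * y = y) : (x * y) * (x * y) = x * y := by
  linear_combination y * y * h + x * h'

/-- a sum of pieces `O i * Z i` with `Z i` idempotent orthogonal to `X i * Y i` is idempotent -/
lemma sum_idem (hO : ∀ n, OO X Y n * OO X Y n = OO X Y n) (Z : ℕ → S) (hZ : ∀ i, Z i * Z i = Z i)
    (hZ' : ∀ i, Z i * (X i * Y i) = 0) (n : ℕ) :
    (∑ i ∈ Finset.range n, OO X Y i * Z i) * (∑ i ∈ Finset.range n, OO X Y i * Z i) =
      (∑ i ∈ Finset.range n, OO X Y i * Z i) ∧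
    (∑ i ∈ Finset.range n, OO X Y i * Z i) * OO X Y n = 0 := by
  induction n with
  | zero => simp
  | succ n ih =>
    obtain ⟨h1, h2⟩ := ih
    rw [Finset.sum_range_succ]
    set D := ∑ i ∈ Finset.range n, OO X Y i * Z i
    constructor
    · linear_combination h1 + 2 * Z n * h2 + (Z n) ^ 2 * hO n + OO X Y n * hZ n
    · simp only [OO]
      linear_combination (X n * Y n) * h2 + Z n * (X n * Y n) * hO n + OO X Y n * hZ' n

lemma total (n : ℕ) : OO X Y n + PP X Y n + QQ X Y n + DD X Y n = 1 := by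
  induction n with
  | zero => simp [OO, PP, QQ, DD]
  | succ n ih =>
    unfold PP QQ DD at *
    simp only [Finset.sum_range_succ, OO]
    linear_combination ih

end proj

/-- abstract form of the theorem -/
theorem main (hs : Sym φ) (X Y : ℕ → S) (hX : ∀ i, X i * X i = X i) (hY : ∀ i, Y i * Y i = Y i)
    (ua ub ug : Module.End ℝ V)
    (hua : ∀ v w, inner ℝ (ua v) (ua w) = inner ℝ v w)
    (hub : ∀ v w, inner ℝ (ub v) (ub w) = inner ℝ v w)
    (hug : ∀ v w, inner ℝ (ug v) (ug w) = inner ℝ v w)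
    (ha0 : ∀ i, SC φ ua (X i) (X i))
    (ha1 : ∀ i, SC φ ua (Y i) (X i * Y i + (1 - X i) * (1 - Y i)))
    (hb0 : ∀ i, SC φ ub (X i) (X i * Y i + (1 - X i) * (1 - Y i)))
    (hb1 : ∀ i, SC φ ub (Y i) (Y i))
    (hg0 : ∀ i, SC φ ug (X i) (X i * Y (i + 1) + (1 - X i) * (1 - Y (i + 1))))
    (hg1 : ∀ i, SC φ ug (Y i) (Y i))
    (ξ : V) (hξ : ‖ξ‖ = 1) (r : ℝ) (hra : ‖ua ξ - ξ‖ ≤ r) (hrb : ‖ub ξ - ξ‖ ≤ r)
    (hrg : ‖ug ξ - ξ‖ ≤ r) (hr0 : f φ (1 - Y 0) ξ ≤ r) (n : ℕ) :
    1 - 25 * r ≤ f φ (OO X Y n) ξ := by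
  have hO := OO_idem hX hY
  have isn : ∀ u : Module.End ℝ V, (∀ v w, inner ℝ (u v) (u w) = inner ℝ v w) → ‖u ξ‖ = 1 := by
    intro u hu
    have h1 : ‖u ξ‖ * ‖u ξ‖ = ‖ξ‖ * ‖ξ‖ := by
      rw [← real_inner_self_eq_norm_mul_norm, ← real_inner_self_eq_norm_mul_norm, hu]
    rw [hξ] at h1
    nlinarith [norm_nonneg (u ξ)]
  have hPid : PP X Y n * PP X Y n = PP X Y n :=
    (sum_idem hO _ (fun i => idem_mul (idem_compl (hX i)) (hY i))
      (fun i => by linear_combination (-Y i * Y i) * hX i) n).1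
  have hDid : DD X Y n * DD X Y n = DD X Y n :=
    (sum_idem hO _ (fun i => idem_mul (idem_compl (hX i)) (idem_compl (hY i)))
      (fun i => by linear_combination (-Y i + Y i * Y i) * hX i) n).1
  -- alpha
  have haO : ∀ i, SC φ ua (OO X Y i) (OO X Y i) := by
    intro i
    induction i with
    | zero => exact SC.one ua
    | succ i ih =>
      have h1 := ih.mul ((ha0 i).mul (ha1 i))
      have h2 : OO X Y i * (X i * (X i * Y i + (1 - X i) * (1 - Y i))) = OO X Y (i + 1) := by
        simp only [OO]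
        linear_combination OO X Y i * (2 * Y i - 1) * hX i
      rw [h2] at h1
      exact h1
  have haPD : SC φ ua (PP X Y n) (DD X Y n) := by
    unfold PP DD
    refine SC.sum n fun i => ?_
    have h1 := (haO i).mul (((SC.one ua).sub (ha0 i)).mul (ha1 i))
    have h2 : OO X Y i * ((1 - X i) * (X i * Y i + (1 - X i) * (1 - Y i))) =
        OO X Y i * ((1 - X i) * (1 - Y i)) := by
      linear_combination OO X Y i * (1 - 2 * Y i) * hX i
    rw [h2] at h1
    exact h1
  -- beta
  have hbO : ∀ i, SC φ ub (OO X Y i) (OO X Y i) := by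
    intro i
    induction i with
    | zero => exact SC.one ub
    | succ i ih =>
      have h1 := ih.mul ((hb0 i).mul (hb1 i))
      have h2 : OO X Y i * ((X i * Y i + (1 - X i) * (1 - Y i)) * Y i) = OO X Y (i + 1) := by
        simp only [OO]
        linear_combination OO X Y i * (2 * X i - 1) * hY i
      rw [h2] at h1
      exact h1
  have hbQD : SC φ ub (QQ X Y n) (DD X Y n) := by
    unfold QQ DD
    refine SC.sum n fun i => ?_
    have h1 := (hbO i).mul ((hb0 i).mul ((SC.one ub).sub (hb1 i)))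
    have h2 : OO X Y i * ((X i * Y i + (1 - X i) * (1 - Y i)) * (1 - Y i)) =
        OO X Y i * ((1 - X i) * (1 - Y i)) := by
      linear_combination OO X Y i * (1 - 2 * X i) * hY i
    rw [h2] at h1
    exact h1
  -- gamma
  let W : ℕ → S := fun k => X k * Y (k + 1) + (1 - X k) * (1 - Y (k + 1))
  let O' : ℕ → S := fun n => Nat.rec 1 (fun k o => o * (W k * Y k)) n
  have hO's : ∀ k, O' (k + 1) = O' k * (W k * Y k) := fun k => rfl
  have hgO : ∀ i, SC φ ug (OO X Y i) (O' i) := by
    intro i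
    induction i with
    | zero => exact SC.one ug
    | succ i ih =>
      rw [hO's]
      exact ih.mul ((hg0 i).mul (hg1 i))
  have hO'Y : ∀ i, O' i * Y i = OO X Y i * Y i := by
    intro i
    induction i with
    | zero => rfl
    | succ i ih =>
      rw [hO's]
      simp only [OO, W]
      linear_combination (X i * Y (i + 1) * Y (i + 1) + (1 - X i) * (1 - Y (i + 1)) * Y (i + 1)) * ih
        + OO X Y i * Y i * (2 * X i - 1) * hY (i + 1)
  have hgT : SC φ ug (∑ i ∈ Finset.range n, OO X Y (i + 1) * (1 - Y (i + 1)))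
      (∑ i ∈ Finset.range n, OO X Y i * ((1 - X i) * Y i) * (1 - Y (i + 1))) := by
    refine SC.sum n fun i => ?_
    have h1 := (hgO (i + 1)).mul ((SC.one ug).sub (hg1 (i + 1)))
    have h2 : O' (i + 1) * (1 - Y (i + 1)) = OO X Y i * ((1 - X i) * Y i) * (1 - Y (i + 1)) := by
      rw [hO's]
      simp only [W]
      linear_combination (X i * Y (i + 1) + (1 - X i) * (1 - Y (i + 1))) * (1 - Y (i + 1)) * hO'Y i
        + OO X Y i * Y i * (1 - 2 * X i) * hY (i + 1)
    rw [h2] at h1
    exact h1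
  -- numbers
  have e1 := haPD.f_eq hua ξ
  have e2 := hbQD.f_eq hub ξ
  have e3 := hgT.f_eq hug ξ
  have p1 := pert hs hDid hξ (isn ua hua) hra
  have p2 := pert hs hDid hξ (isn ub hub) hrb
  have p3 := pert hs hPid hξ (isn ug hug) hrg
  rw [e1] at p1
  rw [e2] at p2
  have k1 : f φ (∑ i ∈ Finset.range n, OO X Y i * ((1 - X i) * Y i) * (1 - Y (i + 1))) (ug ξ)
      ≤ f φ (PP X Y n) (ug ξ) := by
    unfold PP
    rw [f_sum, f_sum]
    refine Finset.sum_le_sum fun i _ => ?_
    have h1 : OO X Y i * ((1 - X i) * Y i) =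
      OO X Y i * ((1 - X i) * Y i) * (1 - Y (i + 1)) + OO X Y i * ((1 - X i) * Y i) * Y (i + 1) := by
      ring
    have h2 : f φ (OO X Y i * ((1 - X i) * Y i)) (ug ξ) =
        f φ (OO X Y i * ((1 - X i) * Y i) * (1 - Y (i + 1))) (ug ξ) +
        f φ (OO X Y i * ((1 - X i) * Y i) * Y (i + 1)) (ug ξ) := by
      rw [← f_add, ← h1]
    rw [h2]
    have h3 := f_nonneg hs (idem_mul (idem_mul (hO i) (idem_mul (idem_compl (hX i)) (hY i)))
      (hY (i + 1))) (ug ξ)
    linarith
  have k2 : f φ (QQ X Y n) ξ + f φ (DD X Y n) ξ ≤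
      f φ (∑ i ∈ Finset.range n, OO X Y (i + 1) * (1 - Y (i + 1))) ξ + r := by
    have h1 : QQ X Y n + DD X Y n = ∑ i ∈ Finset.range n, OO X Y i * (1 - Y i) := by
      unfold QQ DD
      rw [← Finset.sum_add_distrib]
      refine Finset.sum_congr rfl fun i _ => ?_
      ring
    have h2 : ∑ i ∈ Finset.range n, OO X Y i * (1 - Y i) + OO X Y n * (1 - Y n) =
        ∑ i ∈ Finset.range n, OO X Y (i + 1) * (1 - Y (i + 1)) + (1 - Y 0) := by
      rw [← Finset.sum_range_succ (fun i => OO X Y i * (1 - Y i)), Finset.sum_range_succ']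
      simp [OO]
    have h3 := f_nonneg hs (idem_mul (hO n) (idem_compl (hY n))) ξ
    have h4 := congrArg (fun s => f φ s ξ) h2
    simp only [f_add] at h4
    rw [← f_add, h1]
    linarith
  have k3 := congrArg (fun s => f φ s ξ) (total (X := X) (Y := Y) n)
  simp only [f_add, f_one, hξ] at k3
  rw [abs_le] at p1 p2 p3
  rw [e3] at k1
  norm_num at k3
  linarith [p1.1, p1.2, p2.1, p2.2, p3.1, p3.2]

end RT

open RT in
theorem holds : Pool.Agent.H646.CR.S_rtH := by
  intro G _ c α β γ hcomm hinv hα0 hα1 hβ0 hβ1 hγ0 hγ1 V _ _ π ξ hmul hone hnorm hξ hα hβ hγ h1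
  have hinner : ∀ g v w, inner ℝ (π g v) (π g w) = (inner ℝ v w : ℝ) := by
    intro g v w
    have e1 := real_inner_eq_norm_add_mul_self_sub_norm_mul_self_sub_norm_mul_self_div_two
      (π g v) (π g w)
    have e2 := real_inner_eq_norm_add_mul_self_sub_norm_mul_self_sub_norm_mul_self_div_two v w
    rw [e1, e2, ← map_add, hnorm, hnorm, hnorm]
  let E : ℕ → Module.End ℝ V := fun n => π (c n)
  have hpim : ∀ g h, (π g : Module.End ℝ V) * π h = π (g * h) := by
    intro g h
    ext v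
    rw [Module.End.mul_apply, hmul]
  have hEc : ∀ i j, E i * E j = E j * E i := by
    intro i j
    show (π (c i) : Module.End ℝ V) * π (c j) = π (c j) * π (c i)
    rw [hpim, hpim, hcomm]
  have hE2 : ∀ i, E i * E i = 1 := by
    intro i
    show (π (c i) : Module.End ℝ V) * π (c i) = 1
    rw [hpim, hinv]
    ext v
    rw [hone]; rfl
  have hEs : ∀ i v w, inner ℝ (E i v) w = (inner ℝ v (E i w) : ℝ) := by
    intro i v w
    have h2 : E i (E i v) = v := by
      rw [← Module.End.mul_apply, hE2]; rfl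
    have h3 := hinner (c i) (E i v) w
    have h4 : π (c i) (E i v) = v := h2
    rw [h4] at h3
    rw [← h3]
  have hs : ∀ a ∈ Set.range E, ∀ b ∈ Set.range E, a * b = b * a := by
    rintro _ ⟨i, rfl⟩ _ ⟨j, rfl⟩
    exact hEc i j
  let _ : CommRing (Algebra.adjoin ℝ (Set.range E)) :=
    { (Algebra.adjoin ℝ (Set.range E)).toRing with
      mul_comm := (Algebra.isMulCommutative_adjoin ℝ hs).is_comm.comm }
  let φ : Algebra.adjoin ℝ (Set.range E) →ₐ[ℝ] Module.End ℝ V :=
    (Algebra.adjoin ℝ (Set.range E)).val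
  have hφ : ∀ x, φ x = (x : Module.End ℝ V) := fun x => rfl
  have hsym : Sym φ := by
    intro s v w
    rw [hφ]
    have key : ∀ x ∈ Algebra.adjoin ℝ (Set.range E), ∀ v w, inner ℝ (x v) w = (inner ℝ v (x w) : ℝ) := by
      intro x hx
      induction hx using Algebra.adjoin_induction with
      | mem x hx =>
        obtain ⟨i, rfl⟩ := hx
        exact hEs i
      | algebraMap r =>
        intro v w
        rw [Module.algebraMap_end_apply, Module.algebraMap_end_apply, inner_smul_left, inner_smul_right]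
        rfl
      | add x y _ _ hx hy =>
        intro v w
        rw [LinearMap.add_apply, LinearMap.add_apply, inner_add_left, inner_add_right, hx, hy]
      | mul x y hx' hy' hx hy =>
        intro v w
        have hc : x * y = y * x := by
          have := mul_comm (⟨x, hx'⟩ : Algebra.adjoin ℝ (Set.range E)) ⟨y, hy'⟩
          exact congrArg Subtype.val this
        rw [Module.End.mul_apply, hx, hy, ← Module.End.mul_apply, ← hc]
    exact key s s.2 v w
  let e : ℕ → Algebra.adjoin ℝ (Set.range E) := fun n =>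
    ⟨E n, Algebra.subset_adjoin ⟨n, rfl⟩⟩
  have he2 : ∀ n, e n * e n = 1 := fun n => Subtype.ext (hE2 n)
  have hφe : ∀ n, φ (e n) = π (c n) := fun n => rfl
  let h : Algebra.adjoin ℝ (Set.range E) := algebraMap ℝ _ (1 / 2)
  have hh : 2 * h = 1 := by
    have : (algebraMap ℝ (Algebra.adjoin ℝ (Set.range E))) 2 * h = 1 := by
      show (algebraMap ℝ (Algebra.adjoin ℝ (Set.range E))) 2 * algebraMap ℝ _ (1 / 2) = 1
      rw [← map_mul]
      norm_num
    rwa [map_ofNat] at this
  let X : ℕ → Algebra.adjoin ℝ (Set.range E) := fun i => h * (1 + e (2 * i))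
  let Y : ℕ → Algebra.adjoin ℝ (Set.range E) := fun i => h * (1 + e (2 * i + 1))
  have hidem : ∀ n, (h * (1 + e n)) * (h * (1 + e n)) = h * (1 + e n) := by
    intro n
    linear_combination h * h * he2 n + h * (1 + e n) * hh
  have hX : ∀ i, X i * X i = X i := fun i => hidem _
  have hY : ∀ i, Y i * Y i = Y i := fun i => hidem _
  have hSCh : ∀ u : Module.End ℝ V, SC φ u h h := by
    intro u
    have := (SC.one (φ := φ) u).smul (1 / 2 : ℝ)
    have e1 : (1 / 2 : ℝ) • (1 : Algebra.adjoin ℝ (Set.range E)) = h := by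
      rw [Algebra.smul_def, mul_one]
    rw [e1] at this
    exact this
  have hSC1 : ∀ (g : G) (m n : ℕ), g * c m * g⁻¹ = c n → SC φ (π g) (e m) (e n) := by
    intro g m n hg
    show (π g : Module.End ℝ V) * π (c m) = π (c n) * π g
    rw [hpim, hpim]
    congr 1
    rw [← hg]; group
  have hSC2 : ∀ (g : G) (m n k : ℕ), g * c m * g⁻¹ = c n * c k →
      SC φ (π g) (e m) (e n * e k) := by
    intro g m n k hg
    show (π g : Module.End ℝ V) * π (c m) = (π (c n) * π (c k)) * π g
    rw [hpim, hpim, hpim]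
    congr 1
    rw [← hg]; group
  have hF1 : ∀ (u : Module.End ℝ V) (m n : ℕ), SC φ u (e m) (e n) →
      SC φ u (h * (1 + e m)) (h * (1 + e n)) :=
    fun u m n hu => (hSCh u).mul ((SC.one u).add hu)
  have hF2 : ∀ (u : Module.End ℝ V) (m n k : ℕ), SC φ u (e m) (e n * e k) →
      SC φ u (h * (1 + e m)) (h * (1 + e n) * (h * (1 + e k)) +
        (1 - h * (1 + e n)) * (1 - h * (1 + e k))) := by
    intro u m n k hu
    have h1 := (hSCh u).mul ((SC.one u).add hu)
    have h2 : h * (1 + e n * e k) = h * (1 + e n) * (h * (1 + e k)) +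
        (1 - h * (1 + e n)) * (1 - h * (1 + e k)) := by
      linear_combination (1 - h * (1 + e n) * (1 + e k)) * hh
    rw [h2] at h1
    exact h1
  have hfh : ∀ n, f φ (h * (1 + e n)) ξ = (1 + inner ℝ (π (c n) ξ) ξ) / 2 := by
    intro n
    have e1 : φ (h * (1 + e n)) ξ = (1 / 2 : ℝ) • (ξ + π (c n) ξ) := by
      rw [map_mul, Module.End.mul_apply, map_add, map_one, LinearMap.add_apply,
        Module.End.one_apply, hφe]
      have e2 : φ h = algebraMap ℝ (Module.End ℝ V) (1 / 2) := φ.commutes _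
      rw [e2, Module.algebraMap_end_apply]
    unfold f
    rw [e1, inner_smul_left, inner_add_left, real_inner_self_eq_norm_sq, hξ]
    simp only [RCLike.conj_to_real]
    ring
  have hr0 : f φ (1 - Y 0) ξ ≤ 2 / 10 ^ 3 := by
    rw [f_sub, f_one, hξ]
    show (1 : ℝ) ^ 2 - f φ (h * (1 + e (2 * 0 + 1))) ξ ≤ _
    rw [hfh]
    have e1 : |inner ℝ (π (c 1) ξ - ξ) ξ| ≤ 2 / 10 ^ 3 := by
      refine (abs_real_inner_le_norm _ _).trans ?_
      rw [hξ, mul_one]
      exact h1
    rw [inner_sub_left, real_inner_self_eq_norm_sq, hξ, abs_le] at e1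
    norm_num at e1 ⊢
    linarith [e1.1]
  have hmain := main hsym X Y hX hY (π α) (π β) (π γ) (hinner α) (hinner β) (hinner γ)
    (fun i => hF1 _ _ _ (hSC1 α _ _ (hα0 i)))
    (fun i => hF2 _ _ _ _ (hSC2 α _ _ _ (hα1 i)))
    (fun i => hF2 _ _ _ _ (hSC2 β _ _ _ (hβ0 i)))
    (fun i => hF1 _ _ _ (hSC1 β _ _ (hβ1 i)))
    (fun i => hF2 _ _ _ _ (hSC2 γ _ _ _ (hγ0 i)))
    (fun i => hF1 _ _ _ (hSC1 γ _ _ (hγ1 i)))
    ξ hξ (2 / 10 ^ 3) hα hβ hγ hr0
  have hO := OO_idem hX hY
  have fin : ∀ (i : ℕ) (Z : Algebra.adjoin ℝ (Set.range E)), Z * Z = Z →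
      Z * OO X Y (i + 1) = OO X Y (i + 1) → 19 / 20 ≤ f φ Z ξ := by
    intro i Z hZ hZO
    have e1 := f_nonneg hsym (idem_mul hZ (idem_compl (hO (i + 1)))) ξ
    have e2 : Z * (1 - OO X Y (i + 1)) = Z - OO X Y (i + 1) := by
      rw [mul_sub, mul_one, hZO]
    rw [e2, f_sub] at e1
    have e3 := hmain (i + 1)
    norm_num at e3
    linarith
  intro n
  have hfin : 19 / 20 ≤ f φ (h * (1 + e n)) ξ := by
    rcases Nat.even_or_odd' n with ⟨i, hi | hi⟩
    · refine fin i _ (hidem n) ?_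
      have : h * (1 + e n) = X i := by rw [hi]
      rw [this]
      simp only [OO]
      linear_combination OO X Y i * Y i * hX i
    · refine fin i _ (hidem n) ?_
      have : h * (1 + e n) = Y i := by rw [hi]
      rw [this]
      simp only [OO]
      linear_combination OO X Y i * X i * hY i
  rw [hfh] at hfin
  linarith

end Pool.Agent.H358.CR
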