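import Mathlib
import Pool.Agent.H576.CT.Stm

set_option autoImplicit false

namespace Pool.Agent.H358

open Finset Pool.Agent.TH112.BW Pool.Agent.H576.CT

namespace CTScale

theorem mem_ball {V : Type} [Fintype V] {G : SimpleGraph V} {x y : V} {r : ℕ} :
    y ∈ ball G x r ↔ G.dist x y ≤ r := by
  unfold ball
  simp

theorem one_le_card {V : Type} [Fintype V] (G : SimpleGraph V) (x : V) (r : ℕ) :
    1 ≤ (ball G x r).card :=
  Finset.card_pos.2 ⟨x, mem_ball.2 (by simp)⟩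

theorem ball_mono {V : Type} [Fintype V] (G : SimpleGraph V) (x : V) {r s : ℕ} (h : r ≤ s) :
    (ball G x r).card ≤ (ball G x s).card :=
  Finset.card_le_card fun _ hy => mem_ball.2 ((mem_ball.1 hy).trans h)

/-- polynomial against exponential -/
theorem exists_Q {b : ℝ} (hb : 0 < b) (hb1 : b < 1) (k : ℕ) :
    ∃ Q : ℝ, 1 ≤ Q ∧ ∀ r : ℕ, (r : ℝ) ^ k * b ^ r ≤ Q := by
  have h := tendsto_pow_const_mul_const_pow_of_abs_lt_one k (r := b) (by rw [abs_of_pos hb]; exact hb1)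
  obtain ⟨Q, hQ⟩ := h.bddAbove_range
  refine ⟨max Q 1, le_max_right _ _, fun r => (hQ ⟨r, rfl⟩).trans (le_max_left _ _)⟩

end CTScale

open CTScale

theorem ct_scale : S_SCALE := by
  intro b hb hb1 K d hd
  rcases Nat.eq_zero_or_pos K with hK0 | hK
  · subst hK0
    refine ⟨1, one_pos, le_rfl, ?_⟩
    intro V _ _ G hG hcmp
    exfalso
    obtain ⟨x⟩ := hG.nonempty
    have h1 := hcmp x x 0
    have h2 := one_le_card G x 0
    omega
  obtain ⟨D, hD⟩ : ∃ D : ℕ, D = 2 * d := ⟨_, rfl⟩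
  have hD1 : 1 ≤ D := by omega
  obtain ⟨Q, hQ1, hQ⟩ := exists_Q hb hb1 (16 * D)
  have hKR : (1 : ℝ) ≤ K := by exact_mod_cast hK
  have hQ0 : 0 < Q := by linarith
  obtain ⟨c0, hc0⟩ : ∃ c0 : ℝ, c0 = min (1 / Q) (1 / 16 ^ D) := ⟨_, rfl⟩
  have hc0pos : 0 < c0 := by rw [hc0]; positivity
  have hc0Q : c0 * Q ≤ 1 := by
    have : c0 ≤ 1 / Q := by rw [hc0]; exact min_le_left _ _
    calc c0 * Q ≤ 1 / Q * Q := mul_le_mul_of_nonneg_right this hQ0.le
      _ = 1 := by field_simp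
  have hc016 : c0 * 16 ^ D ≤ 1 := by
    have : c0 ≤ 1 / 16 ^ D := by rw [hc0]; exact min_le_right _ _
    calc c0 * 16 ^ D ≤ 1 / 16 ^ D * 16 ^ D := mul_le_mul_of_nonneg_right this (by positivity)
      _ = 1 := by field_simp
  have hc01 : c0 ≤ 1 := by
    have h1 : (1 : ℝ) ≤ 16 ^ D := one_le_pow₀ (by norm_num)
    nlinarith
  obtain ⟨c1, hc1⟩ : ∃ c1 : ℝ, c1 = c0 / K / (2 * K) ^ D := ⟨_, rfl⟩
  have hc1pos : 0 < c1 := by rw [hc1]; positivity
  have hc1K : c1 * (2 * K) ^ D = c0 / K := by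
    rw [hc1]; field_simp
  have hc0K : c0 / K ≤ 1 := by
    rw [div_le_one (by positivity)]; linarith
  have hc11 : c1 ≤ 1 := by
    have h1 : (1 : ℝ) ≤ (2 * K) ^ D := one_le_pow₀ (by linarith)
    nlinarith
  have h256 : (1 : ℝ) ≤ 256 ^ D := one_le_pow₀ (by norm_num)
  refine ⟨c1 / 256 ^ D, by positivity, ?_, ?_⟩
  · rw [div_le_one (by positivity)]; linarith
  intro V _ _ G hG hcmp
  have hne : Nonempty V := hG.nonempty
  -- existence of the scale
  have hex : ∃ r : ℕ, 16 ≤ r ∧ ∀ x, ((ball G x r).card : ℝ) < c0 * (r : ℝ) ^ D := by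
    obtain ⟨n, hn⟩ := exists_nat_gt ((Fintype.card V : ℝ) / c0)
    refine ⟨n + 16, by omega, fun x => ?_⟩
    have h1 : ((ball G x (n + 16)).card : ℝ) ≤ Fintype.card V := by
      exact_mod_cast Finset.card_le_univ _
    have h2 : (Fintype.card V : ℝ) < c0 * n := by
      rw [div_lt_iff₀ hc0pos] at hn
      linarith
    have h3 : (n : ℝ) ≤ ((n + 16 : ℕ) : ℝ) ^ D := by
      have h4 : ((n + 16 : ℕ) : ℝ) ≤ ((n + 16 : ℕ) : ℝ) ^ D :=
        le_self_pow₀ (by push_cast; linarith [(Nat.cast_nonneg n : (0:ℝ) ≤ n)]) (by omega)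
      have h5 : (n : ℝ) ≤ ((n + 16 : ℕ) : ℝ) := by push_cast; linarith
      linarith
    have h6 := mul_le_mul_of_nonneg_left h3 hc0pos.le
    linarith
  classical
  obtain ⟨r1, hr1⟩ : ∃ r1 : ℕ, r1 = Nat.find hex := ⟨_, rfl⟩
  obtain ⟨hr16, hr1lt⟩ := Nat.find_spec hex
  rw [← hr1] at hr16 hr1lt
  have hmin : ∀ r : ℕ, r < r1 → 16 ≤ r → ∃ x, c0 * (r : ℝ) ^ D ≤ ((ball G x r).card : ℝ) := by
    intro r hr h16
    rw [hr1] at hr
    have h1 := Nat.find_min hex hr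
    by_contra hcon
    push Not at hcon
    exact h1 ⟨h16, hcon⟩
  -- the ball sizes
  obtain ⟨v, hv⟩ : ∃ v : ℕ, v = Finset.univ.sup (fun x => (ball G x r1).card) := ⟨_, rfl⟩
  have hvle : ∀ x, (ball G x r1).card ≤ v := fun x => by
    rw [hv]; exact Finset.le_sup (f := fun x => (ball G x r1).card) (Finset.mem_univ x)
  have hvlt : (v : ℝ) < c0 * (r1 : ℝ) ^ D := by
    obtain ⟨x0, _, hx0⟩ := Finset.exists_mem_eq_sup Finset.univ Finset.univ_nonempty
      (fun x => (ball G x r1).card)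
    rw [hv, hx0]
    exact hr1lt x0
  obtain ⟨ρ, hρ⟩ : ∃ ρ : ℕ, ρ = r1 / 16 := ⟨_, rfl⟩
  have hρ1 : 1 ≤ ρ := by omega
  have hρr : 16 * ρ ≤ r1 := by omega
  have hrρ : r1 ≤ 32 * ρ := by omega
  -- lower bounds
  have hlow1 : ∀ r : ℕ, 1 ≤ r → r < r1 → ∃ x, c0 * (r : ℝ) ^ D ≤ ((ball G x r).card : ℝ) := by
    intro r h1 h2
    by_cases h16 : 16 ≤ r
    · exact hmin r h2 h16
    · obtain ⟨x⟩ := hne
      refine ⟨x, ?_⟩
      have h3 : (1 : ℝ) ≤ ((ball G x r).card : ℝ) := by exact_mod_cast one_le_card G x r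
      have h4 : (r : ℝ) ^ D ≤ 16 ^ D := by
        apply pow_le_pow_left₀ (Nat.cast_nonneg _)
        have : r ≤ 16 := by omega
        exact_mod_cast this
      have h5 := mul_le_mul_of_nonneg_left h4 hc0pos.le
      linarith
  have hlow2 : ∀ (y : V) (r : ℕ), 1 ≤ r → r < r1 →
      c0 / K * (r : ℝ) ^ D ≤ ((ball G y (K * r)).card : ℝ) := by
    intro y r h1 h2
    obtain ⟨x, hx⟩ := hlow1 r h1 h2
    have h3 : ((ball G x r).card : ℝ) ≤ K * ((ball G y (K * r)).card : ℝ) := by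
      exact_mod_cast hcmp x y r
    rw [div_mul_eq_mul_div, div_le_iff₀ (by positivity)]
    linarith
  have hlow : ∀ (y : V) (s : ℕ), s ≤ ρ → c1 * (s : ℝ) ^ D ≤ ((ball G y s).card : ℝ) := by
    intro y s hs
    by_cases hsK : K ≤ s
    · have hr1' : 1 ≤ s / K := (Nat.one_le_div_iff hK).2 hsK
      have hr2' : s / K < r1 := by
        have : s / K ≤ s := Nat.div_le_self _ _
        omega
      have h1 := hlow2 y (s / K) hr1' hr2'
      have h2 : ((ball G y (K * (s / K))).card : ℝ) ≤ ((ball G y s).card : ℝ) := by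
        exact_mod_cast ball_mono G y (Nat.mul_div_le s K)
      have h3 : (s : ℝ) ≤ 2 * K * ((s / K : ℕ) : ℝ) := by
        have h4 : s < K * (s / K) + K := by
          have h5 := Nat.div_add_mod s K
          have h6 := Nat.mod_lt s hK
          omega
        have h5 : K ≤ K * (s / K) := Nat.le_mul_of_pos_right K hr1'
        have h6 : s ≤ 2 * K * (s / K) := by
          have : 2 * K * (s / K) = K * (s / K) + K * (s / K) := by ring
          omega
        exact_mod_cast h6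
      have h4 : (s : ℝ) ^ D ≤ (2 * K) ^ D * ((s / K : ℕ) : ℝ) ^ D := by
        rw [← mul_pow]
        exact pow_le_pow_left₀ (Nat.cast_nonneg _) h3 D
      calc c1 * (s : ℝ) ^ D ≤ c1 * ((2 * K) ^ D * ((s / K : ℕ) : ℝ) ^ D) :=
            mul_le_mul_of_nonneg_left h4 hc1pos.le
        _ = c0 / K * ((s / K : ℕ) : ℝ) ^ D := by rw [← mul_assoc, hc1K]
        _ ≤ _ := h1.trans h2
    · have h3 : (1 : ℝ) ≤ ((ball G y s).card : ℝ) := by exact_mod_cast one_le_card G y s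
      have h4 : (s : ℝ) ^ D ≤ (2 * K) ^ D := by
        apply pow_le_pow_left₀ (Nat.cast_nonneg _)
        have : s ≤ 2 * K := by omega
        exact_mod_cast this
      have h5 := mul_le_mul_of_nonneg_left h4 hc1pos.le
      linarith
  refine ⟨ρ, v, hρ1, fun x => (ball_mono G x hρr).trans (hvle x), ?_, ?_, ?_⟩
  · -- the exponential bound
    have h1 : (v : ℝ) ^ 16 * b ^ r1 ≤ 1 := by
      have h2 : (v : ℝ) ^ 16 ≤ (c0 * (r1 : ℝ) ^ D) ^ 16 :=
        pow_le_pow_left₀ (Nat.cast_nonneg _) hvlt.le 16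
      have h3 : (c0 * (r1 : ℝ) ^ D) ^ 16 = c0 ^ 16 * (r1 : ℝ) ^ (16 * D) := by
        rw [mul_pow, ← pow_mul, mul_comm D 16]
      have h4 : c0 ^ 16 ≤ c0 := by
        calc c0 ^ 16 ≤ c0 ^ 1 := pow_le_pow_of_le_one hc0pos.le hc01 (by norm_num)
          _ = c0 := pow_one _
      have h5 := hQ r1
      have hbr : 0 < b ^ r1 := pow_pos hb _
      calc (v : ℝ) ^ 16 * b ^ r1 ≤ (c0 ^ 16 * (r1 : ℝ) ^ (16 * D)) * b ^ r1 := by
            rw [← h3]; exact mul_le_mul_of_nonneg_right h2 hbr.le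
        _ = c0 ^ 16 * ((r1 : ℝ) ^ (16 * D) * b ^ r1) := by ring
        _ ≤ c0 * Q := mul_le_mul h4 h5 (by positivity) hc0pos.le
        _ ≤ 1 := hc0Q
    have h2 : ((v : ℝ) ^ 8 * b ^ (16 * ρ)) ^ 2 ≤ 1 := by
      have h3 : ((v : ℝ) ^ 8 * b ^ (16 * ρ)) ^ 2 = (v : ℝ) ^ 16 * b ^ (32 * ρ) := by
        rw [mul_pow, ← pow_mul, ← pow_mul]
        congr 2
        ring
      rw [h3]
      refine le_trans ?_ h1
      exact mul_le_mul_of_nonneg_left (pow_le_pow_of_le_one hb.le hb1.le hrρ) (by positivity)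
    exact (pow_le_one_iff_of_nonneg (by positivity) two_ne_zero).1 h2
  · intro x j hj
    by_cases hj2 : 2 ≤ j
    · obtain ⟨i, hi⟩ : ∃ i, j = i + 2 := ⟨j - 2, by omega⟩
      have h1 : 2 ^ j / 4 = 2 ^ i := by
        rw [hi, pow_add]
        norm_num
      have h2 : 2 ^ i ≤ ρ := by
        have : 2 ^ j = 2 ^ i * 4 := by rw [hi, pow_add]; norm_num
        omega
      have h3 := hlow x (2 ^ i) h2
      rw [h1]
      refine le_trans ?_ h3
      have h4 : (4 : ℝ) ^ (j * d) = 4 ^ D * ((2 ^ i : ℕ) : ℝ) ^ D := by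
        have e1 : (4 : ℝ) = 2 ^ 2 := by norm_num
        push_cast
        rw [e1, ← pow_mul, ← pow_mul, ← pow_mul, ← pow_add]
        congr 1
        rw [hi, hD]
        ring
      rw [h4]
      have h5 : (4 : ℝ) ^ D ≤ 256 ^ D := pow_le_pow_left₀ (by norm_num) (by norm_num) D
      rw [div_mul_eq_mul_div, div_le_iff₀ (by positivity)]
      have h6 : 0 ≤ c1 * ((2 ^ i : ℕ) : ℝ) ^ D := by positivity
      nlinarith
    · have h1 : (1 : ℝ) ≤ ((ball G x (2 ^ j / 4)).card : ℝ) := by exact_mod_cast one_le_card G x _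
      refine le_trans ?_ h1
      have h2 : (4 : ℝ) ^ (j * d) ≤ 256 ^ D := by
        calc (4 : ℝ) ^ (j * d) ≤ 4 ^ D := pow_le_pow_right₀ (by norm_num) (by
              rw [hD]; exact Nat.mul_le_mul_right d (by omega))
          _ ≤ 256 ^ D := pow_le_pow_left₀ (by norm_num) (by norm_num) D
      rw [div_mul_eq_mul_div, div_le_one (by positivity)]
      have h3 : (0:ℝ) ≤ 4 ^ (j * d) := by positivity
      nlinarith
  · intro x
    have hv2 : (v : ℝ) ≤ (32 * ρ : ℝ) ^ D := by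
      have h1 : (r1 : ℝ) ^ D ≤ (32 * ρ : ℝ) ^ D := by
        apply pow_le_pow_left₀ (Nat.cast_nonneg _)
        exact_mod_cast hrρ
      have h2 : 0 ≤ (r1 : ℝ) ^ D := by positivity
      nlinarith
    by_cases hρ4 : 4 ≤ ρ
    · have h1 := hlow x (ρ / 4) (Nat.div_le_self _ _)
      refine le_trans ?_ h1
      have h2 : (32 * ρ : ℝ) ≤ 256 * ((ρ / 4 : ℕ) : ℝ) := by
        have : 32 * ρ ≤ 256 * (ρ / 4) := by omega
        exact_mod_cast this
      have h3 : (32 * ρ : ℝ) ^ D ≤ 256 ^ D * ((ρ / 4 : ℕ) : ℝ) ^ D := by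
        rw [← mul_pow]
        exact pow_le_pow_left₀ (by positivity) h2 D
      rw [div_mul_eq_mul_div, div_le_iff₀ (by positivity)]
      calc c1 * v ≤ c1 * (256 ^ D * ((ρ / 4 : ℕ) : ℝ) ^ D) :=
            mul_le_mul_of_nonneg_left (hv2.trans h3) hc1pos.le
        _ = c1 * ((ρ / 4 : ℕ) : ℝ) ^ D * 256 ^ D := by ring
    · have h1 : (1 : ℝ) ≤ ((ball G x (ρ / 4)).card : ℝ) := by exact_mod_cast one_le_card G x _
      refine le_trans ?_ h1
      have h2 : (32 * ρ : ℝ) ^ D ≤ 256 ^ D := by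
        apply pow_le_pow_left₀ (by positivity)
        have : 32 * ρ ≤ 256 := by omega
        exact_mod_cast this
      rw [div_mul_eq_mul_div, div_le_one (by positivity)]
      have h3 : (0:ℝ) ≤ v := Nat.cast_nonneg _
      nlinarith

end Pool.Agent.H358
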