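import Pool.Agent.H979.DE.Stm

/-!
# Project DE, task MONO: `S_MONO` from `S_MB`, `S_LEVY`, `S_VAL`
-/

set_option autoImplicit false

open MeasureTheory Finset Filter Pool.Agent.H41.Derrw Pool.Agent.H979.DE
open scoped ENNReal

namespace Pool.Agent.H358

namespace DEMONO

variable {V : Type} [DecidableEq V]

theorem cross_succ (w : ℕ → V) (n : ℕ) (x y : V) : cross w (n + 1) x y = cross w n x y +
    ((if w n = x ∧ w (n + 1) = y then 1 else 0) - (if w n = y ∧ w (n + 1) = x then 1 else 0)) := by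
  unfold cross
  rw [sum_range_succ]

theorem cross_neg (w : ℕ → V) (n : ℕ) (x y : V) : cross w n y x = - cross w n x y := by
  unfold cross
  rw [← sum_neg_distrib]
  refine sum_congr rfl fun k _ => ?_
  ring

theorem pos_stay {w : ℕ → V} {N : ℕ} (hr : ∀ n, N ≤ n → Reg w n) {x y : V} {k : ℕ} (hk : N ≤ k)
    (h0 : 0 < cross w k x y) : ∀ n, k ≤ n → 0 < cross w n x y := by
  intro n hn
  induction n, hn using Nat.le_induction with
  | base => exact h0
  | succ n hn ih =>
    rw [cross_succ]
    by_cases h : w n = y ∧ w (n + 1) = x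
    · exfalso
      have h1 := hr n (hk.trans hn)
      unfold Reg at h1
      rw [h.1, h.2, cross_neg] at h1
      omega
    · rw [if_neg h]
      split_ifs <;> omega

omit [DecidableEq V] in
theorem meas_co [MeasurableSpace V] [DiscreteMeasurableSpace V] (k : ℕ) (a : V) :
    MeasurableSet {w : ℕ → V | w k = a} := by
  have h : Measurable (fun w : ℕ → V => w k) := measurable_pi_apply k
  exact h (MeasurableSet.of_discrete (s := ({a} : Set V)))

theorem meas_cross [MeasurableSpace V] [DiscreteMeasurableSpace V] (n : ℕ) (x y : V) :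
    Measurable fun w : ℕ → V => cross w n x y := by
  have hs : ∀ (k : ℕ) (a : V), MeasurableSet {w : ℕ → V | w k = a} := meas_co
  unfold cross
  refine Finset.measurable_sum _ fun k _ => ?_
  refine Measurable.sub ?_ ?_
  · exact Measurable.ite ((hs k x).inter (hs (k + 1) y)) measurable_const measurable_const
  · exact Measurable.ite ((hs k y).inter (hs (k + 1) x)) measurable_const measurable_const

theorem meas_reg [Countable V] [MeasurableSpace V] [DiscreteMeasurableSpace V] (n : ℕ) :
    MeasurableSet {w : ℕ → V | Reg w n} := by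
  have hs : ∀ (k : ℕ) (a : V), MeasurableSet {w : ℕ → V | w k = a} := meas_co
  have he : {w : ℕ → V | Reg w n} = ⋃ a : V, ⋃ b : V, ({w : ℕ → V | w n = a} ∩ {w : ℕ → V | w (n + 1) = b}) ∩
      (fun w : ℕ → V => cross w n a b) ⁻¹' Set.Ioi 0 := by
    ext w
    simp only [Set.mem_iUnion, Set.mem_inter_iff, Set.mem_preimage, Set.mem_Ioi, Set.mem_ofPred_eq]
    constructor
    · intro h
      exact ⟨w n, w (n + 1), ⟨rfl, rfl⟩, h⟩
    · rintro ⟨a, b, ⟨h1, h2⟩, h3⟩
      unfold Reg
      rw [h1, h2]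
      exact h3
  rw [he]
  exact MeasurableSet.iUnion fun a => MeasurableSet.iUnion fun b =>
    ((hs n a).inter (hs (n + 1) b)).inter (meas_cross n a b measurableSet_Ioi)

theorem meas_freq [MeasurableSpace V] [DiscreteMeasurableSpace V] (x y : V) :
    MeasurableSet {w : ℕ → V | ∃ᶠ n in atTop, w n = x ∧ w (n + 1) = y} := by
  have hs : ∀ (k : ℕ) (a : V), MeasurableSet {w : ℕ → V | w k = a} := meas_co
  have he : {w : ℕ → V | ∃ᶠ n in atTop, w n = x ∧ w (n + 1) = y} =
      ⋂ a : ℕ, ⋃ b : ℕ, ⋃ _ : a ≤ b, ({w : ℕ → V | w b = x} ∩ {w : ℕ → V | w (b + 1) = y}) := by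
    ext w
    simp only [Set.mem_iUnion, Set.mem_iInter, Set.mem_inter_iff, Set.mem_ofPred_eq, frequently_atTop]
    constructor
    · intro h a
      obtain ⟨b, hb, h1⟩ := h a
      exact ⟨b, hb, h1⟩
    · intro h a
      obtain ⟨b, hb, h1⟩ := h a
      exact ⟨b, hb, h1⟩
  rw [he]
  exact MeasurableSet.iInter fun a => MeasurableSet.iUnion fun b => MeasurableSet.iUnion fun _ =>
    (hs b x).inter (hs (b + 1) y)

/-- the event of two exits -/
def FF (x y z : V) (N : ℕ) : Set (ℕ → V) :=
  {w | (∀ n, N ≤ n → Reg w n) ∧ (∃ᶠ n in atTop, w n = x ∧ w (n + 1) = y) ∧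
    (∃ᶠ n in atTop, w n = x ∧ w (n + 1) = z)}

theorem meas_FF [Countable V] [MeasurableSpace V] [DiscreteMeasurableSpace V] (x y z : V) (N : ℕ) :
    MeasurableSet (FF x y z N) := by
  have he : FF x y z N = (⋂ n : ℕ, ⋂ _ : N ≤ n, {w : ℕ → V | Reg w n}) ∩
      ({w : ℕ → V | ∃ᶠ n in atTop, w n = x ∧ w (n + 1) = y} ∩
        {w : ℕ → V | ∃ᶠ n in atTop, w n = x ∧ w (n + 1) = z}) := by
    ext w
    simp only [FF, Set.mem_iInter, Set.mem_inter_iff, Set.mem_ofPred_eq]
  rw [he]
  exact (MeasurableSet.iInter fun n => MeasurableSet.iInter fun _ => meas_reg n).inter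
    ((meas_freq x y).inter (meas_freq x z))

end DEMONO

open DEMONO

theorem de_mono (h1 : S_MB) (h2 : S_LEVY) (h3 : S_VAL) : S_MONO := by
  intro V _ _ _ _ G _ γ v P hG hP hγ
  have hprob : IsProbabilityMeasure P := hP.1
  have hval := h3 V G γ v P hP
  have key : ∀ x y z : V, ∀ N : ℕ, y ≠ z → ∀ᵐ w ∂P, w ∉ FF x y z N := by
    intro x y z N hyz
    by_cases hadj : G.Adj x y ∧ G.Adj x z
    · have hlev := h2 V P (FF x y z N)ᶜ (meas_FF x y z N).compl (ENNReal.ofReal (3 / 100))
        (by positivity)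
        (fun w n => N ≤ n ∧ 0 < cross w n x y ∧ 0 < cross w n x z) (by
          rintro w n ⟨hn, hc1, hc2⟩
          have hmb := h1 V G γ v P hG hP hγ x y z w n hadj.1 hadj.2 hyz hc1 hc2
          have hsub : cyl w n ∩ FF x y z N ⊆ cyl w n ∩ {w | (∀ k, n ≤ k → Reg w k) ∧
              (∃ᶠ k in atTop, w k = x ∧ w (k + 1) = y) ∧ (∃ᶠ k in atTop, w k = x ∧ w (k + 1) = z)} := by
            rintro u ⟨hu1, hu2⟩
            exact ⟨hu1, fun k hk => hu2.1 k (hn.trans hk), hu2.2⟩
          have hle : P.real (cyl w n ∩ FF x y z N) ≤ 97 / 100 * P.real (cyl w n) :=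
            (measureReal_mono hsub).trans hmb
          have hadd := measureReal_inter_add_sdiff (μ := P) (s := cyl w n) (t := FF x y z N) (meas_FF x y z N)
          have hge : 3 / 100 * P.real (cyl w n) ≤ P.real (cyl w n \ FF x y z N) := by linarith
          rw [← Set.sdiff_eq]
          calc ENNReal.ofReal (3 / 100) * P (cyl w n)
              = ENNReal.ofReal (3 / 100) * ENNReal.ofReal (P.real (cyl w n)) := by
                rw [ofReal_measureReal]
            _ = ENNReal.ofReal (3 / 100 * P.real (cyl w n)) := by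
                rw [ENNReal.ofReal_mul (by norm_num)]
            _ ≤ ENNReal.ofReal (P.real (cyl w n \ FF x y z N)) := ENNReal.ofReal_le_ofReal hge
            _ = P (cyl w n \ FF x y z N) := by rw [ofReal_measureReal])
      filter_upwards [hlev] with w hw hF
      refine hw ?_ hF
      obtain ⟨hr, hy, hz⟩ := hF
      obtain ⟨k1, hk1, hk1'⟩ := frequently_atTop.1 hy N
      obtain ⟨k2, hk2, hk2'⟩ := frequently_atTop.1 hz N
      have p1 : 0 < cross w k1 x y := by
        have := hr k1 hk1
        unfold Reg at this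
        rwa [hk1'.1, hk1'.2] at this
      have p2 : 0 < cross w k2 x z := by
        have := hr k2 hk2
        unfold Reg at this
        rwa [hk2'.1, hk2'.2] at this
      apply Eventually.frequently
      filter_upwards [eventually_ge_atTop N, eventually_ge_atTop k1, eventually_ge_atTop k2] with n a1 a2 a3
      exact ⟨a1, pos_stay hr hk1 p1 n a2, pos_stay hr hk2 p2 n a3⟩
    · filter_upwards [hval] with w hw hF
      apply hadj
      obtain ⟨hr, hy, hz⟩ := hF
      obtain ⟨k1, hk1, hk1'⟩ := frequently_atTop.1 hy N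
      obtain ⟨k2, hk2, hk2'⟩ := frequently_atTop.1 hz N
      have q1 := hw.2 (k1 + 1) k1 (Nat.lt_succ_self k1)
      have q2 := hw.2 (k2 + 1) k2 (Nat.lt_succ_self k2)
      rw [hk1'.1, hk1'.2] at q1
      rw [hk2'.1, hk2'.2] at q2
      exact ⟨q1, q2⟩
  have hall : ∀ᵐ w ∂P, ∀ x y z : V, ∀ N : ℕ, y ≠ z → w ∉ FF x y z N := by
    rw [ae_all_iff]; intro x
    rw [ae_all_iff]; intro y
    rw [ae_all_iff]; intro z
    rw [ae_all_iff]; intro N
    by_cases hyz : y = z
    · exact Eventually.of_forall fun w h => absurd hyz h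
    · filter_upwards [key x y z N hyz] with w hw _
      exact hw
  filter_upwards [hall] with w hw hN x y z hyz h
  obtain ⟨N, hN⟩ := hN
  exact hw x y z N hyz ⟨hN, h.1, h.2⟩

end Pool.Agent.H358
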