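import Mathlib
import Pool.Agent.H576.RD.Stm

/-! POLE: finite rotation groups without invariant line (written by helper358 for helper576). -/

set_option autoImplicit false

namespace Pool.Agent.H358.RDPole

open Pool.Agent.H576.RD Module

/-- every rotation has an axis -/
theorem axis (g : LI) (hg : dt g = 1) : ∃ p : E, ‖p‖ = 1 ∧ g p = p := by
  set f : E →ₗ[ℝ] E := (g.toLinearEquiv : E →ₗ[ℝ] E) with hf
  set b := EuclideanSpace.basisFun (Fin 3) ℝ with hb
  set M := LinearMap.toMatrix b.toBasis b.toBasis f with hM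
  have hMu : M ∈ Matrix.unitaryGroup (Fin 3) ℝ := LinearIsometryEquiv.toMatrix_mem_unitaryGroup g b b
  have hMM : M * M.transpose = 1 := by
    have h1 := Matrix.mem_unitaryGroup_iff.1 hMu
    rw [Matrix.star_eq_conjTranspose] at h1
    have h2 : M.conjTranspose = M.transpose := by
      ext i j
      simp [Matrix.conjTranspose_apply]
    rw [h2] at h1
    exact h1
  have hdet : M.det = 1 := by
    rw [hM, LinearMap.det_toMatrix]
    exact hg
  have h1 : (M - 1).det = 0 := by
    have e1 : M - 1 = M * (1 - M).transpose := by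
      rw [Matrix.transpose_sub, Matrix.transpose_one, mul_sub, mul_one, hMM]
    have e2 : (M - 1).det = (1 - M).det := by
      conv_lhs => rw [e1]
      rw [Matrix.det_mul, hdet, one_mul, Matrix.det_transpose]
    have e3 : (1 - M).det = -(M - 1).det := by
      have e4 : 1 - M = -(M - 1) := by abel
      rw [e4, Matrix.det_neg]
      simp
      ring
    linarith
  have h2 : LinearMap.det (f - 1) = 0 := by
    rw [← LinearMap.det_toMatrix b.toBasis, map_sub]
    have e1 : LinearMap.toMatrix b.toBasis b.toBasis (1 : E →ₗ[ℝ] E) = 1 :=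
      LinearMap.toMatrix_one b.toBasis
    rw [e1]
    exact h1
  have h3 := LinearMap.bot_lt_ker_of_det_eq_zero h2
  obtain ⟨v, hv, hv0⟩ := (Submodule.ne_bot_iff _).1 h3.ne'
  rw [LinearMap.mem_ker, LinearMap.sub_apply, sub_eq_zero] at hv
  have hgv : g v = v := hv
  have hn : ‖v‖ ≠ 0 := norm_ne_zero_iff.2 hv0
  refine ⟨‖v‖⁻¹ • v, ?_, ?_⟩
  · rw [norm_smul, norm_inv, norm_norm, inv_mul_cancel₀ hn]
  · rw [map_smul, hgv]

/-- a rotation other than the identity fixes only two unit vectors -/
theorem two_fixed (g : LI) (hg : dt g = 1) (hg1 : g ≠ 1) {p q : E} (hp : ‖p‖ = 1) (hq : ‖q‖ = 1)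
    (hgp : g p = p) (hgq : g q = q) : q = p ∨ q = -p := by
  by_contra hcon
  push Not at hcon
  obtain ⟨h1, h2⟩ := hcon
  set K : Submodule ℝ E := (ContinuousLinearMap.id ℝ E - (g : E →L[ℝ] E)).ker with hK
  have hpK : p ∈ K := by
    rw [hK, LinearMap.mem_ker]
    show p - g p = 0
    rw [hgp, sub_self]
  have hqK : q ∈ K := by
    rw [hK, LinearMap.mem_ker]
    show q - g q = 0
    rw [hgq, sub_self]
  have hp0 : p ≠ 0 := by
    intro h0
    rw [h0, norm_zero] at hp
    exact zero_ne_one hp
  have hli : LinearIndependent ℝ ![p, q] := by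
    rw [LinearIndependent.pair_iff' hp0]
    intro a ha
    have h3 : |a| = 1 := by
      have h4 := congrArg norm ha
      rw [norm_smul, hp, hq, mul_one] at h4
      exact h4
    rcases eq_or_eq_neg_of_abs_eq h3 with h4 | h4
    · rw [h4, one_smul] at ha
      exact h1 ha.symm
    · rw [h4, neg_smul, one_smul] at ha
      exact h2 ha.symm
  have hspan : Submodule.span ℝ (Set.range ![p, q]) ≤ K := by
    rw [Submodule.span_le]
    rintro _ ⟨i, rfl⟩
    fin_cases i
    · exact hpK
    · exact hqK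
  have hfr : 2 ≤ finrank ℝ K := by
    have h3 := finrank_span_eq_card hli
    rw [Fintype.card_fin] at h3
    have h4 := Submodule.finrank_mono hspan
    rw [h3] at h4
    exact h4
  have hE : finrank ℝ E = 3 := by simp
  have hort : finrank ℝ Kᗮ ≤ 1 := by
    have h3 := Submodule.finrank_add_finrank_orthogonal K
    rw [hE] at h3
    omega
  obtain ⟨l, hl1, hl2⟩ := LinearIsometryEquiv.reflections_generate_dim_aux g hort
  match l, hl1, hl2 with
  | [], _, hl2 =>
    apply hg1
    rw [hl2]
    rfl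
  | [v], _, hl2 =>
    have hl3 : g = (ℝ ∙ v)ᗮ.reflection := by
      rw [hl2]
      simp
    by_cases hv : v = 0
    · apply hg1
      rw [hl3, hv]
      ext x : 1
      have h4 : (ℝ ∙ (0 : E))ᗮ = ⊤ := by
        rw [Submodule.span_zero_singleton, Submodule.bot_orthogonal_eq_top]
      show (ℝ ∙ (0 : E))ᗮ.reflection x = x
      rw [Submodule.reflection_eq_self_iff, h4]
      exact Submodule.mem_top
    · have h4 := Submodule.det_reflection (𝕜 := ℝ) (ℝ ∙ v)ᗮ
      have h5 : finrank ℝ ((ℝ ∙ v)ᗮᗮ : Submodule ℝ E) = 1 := by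
        rw [Submodule.orthogonal_orthogonal]
        exact finrank_span_singleton hv
      rw [h5, pow_one] at h4
      have h6 : dt g = -1 := by
        unfold dt
        rw [hl3]
        exact h4
      rw [hg] at h6
      norm_num at h6
  | a :: b :: l, hl1, _ =>
    simp at hl1

variable (G : Subgroup LI)

/-- the poles -/
def Pole : Type := {p : E // ‖p‖ = 1 ∧ ∃ g ∈ G, g ≠ 1 ∧ g p = p}

noncomputable instance act : MulAction G (Pole G) where
  smul g p := ⟨(g : LI) p.1, by rw [LinearIsometryEquiv.norm_map]; exact p.2.1, by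
    obtain ⟨h, hh, hh1, hhp⟩ := p.2.2
    refine ⟨(g : LI) * h * (g : LI)⁻¹, G.mul_mem (G.mul_mem g.2 hh) (G.inv_mem g.2), ?_, ?_⟩
    · intro h0
      apply hh1
      have h1 : (g : LI) * h = g := by
        rw [mul_inv_eq_one] at h0
        exact h0
      exact mul_eq_left.1 h1
    · show (g : LI) (h ((g : LI)⁻¹ ((g : LI) p.1))) = (g : LI) p.1
      have h1 : (g : LI)⁻¹ ((g : LI) p.1) = p.1 := LinearIsometryEquiv.symm_apply_apply (g : LI) p.1
      rw [h1, hhp]⟩
  one_smul p := Subtype.ext rfl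
  mul_smul g h p := Subtype.ext rfl

theorem smul_val (g : G) (p : Pole G) : (g • p).1 = (g : LI) p.1 := rfl

/-- arithmetic of the pole counting -/
theorem arith (N n₀ n₁ n₂ m₀ m₁ m₂ : ℕ) (h₀ : n₀ * m₀ = N) (h₁ : n₁ * m₁ = N) (h₂ : n₂ * m₂ = N)
    (a₀ : 2 ≤ n₀) (a₁ : 2 ≤ n₁) (a₂ : 2 ≤ n₂) (b₀ : 3 ≤ m₀) (b₁ : 3 ≤ m₁) (b₂ : 3 ≤ m₂)
    (hsum : m₀ + m₁ + m₂ = N + 2) :
    N = 12 ∨ (N = 24 ∧ (n₀ = 4 ∨ n₁ = 4 ∨ n₂ = 4)) ∨ (N = 60 ∧ (n₀ = 5 ∨ n₁ = 5 ∨ n₂ = 5)) := by
  have key : ∀ n m : ℕ, n * m = N → 2 ≤ n → (n = 2 ∧ 2 * m = N) ∨ (n = 3 ∧ 3 * m = N) ∨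
      (n = 4 ∧ 4 * m = N) ∨ (n = 5 ∧ 5 * m = N) ∨ (6 ≤ n ∧ 6 * m ≤ N) := by
    intro n m h a
    rcases Nat.lt_or_ge n 6 with h1 | h1
    · have h2 : n = 2 ∨ n = 3 ∨ n = 4 ∨ n = 5 := by omega
      rcases h2 with h2 | h2 | h2 | h2 <;> subst h2 <;> simp [h]
    · right; right; right; right
      exact ⟨h1, by rw [← h]; exact Nat.mul_le_mul_right m h1⟩
  rcases key _ _ h₀ a₀ with c | c | c | c | c <;> rcases key _ _ h₁ a₁ with c' | c' | c' | c' | c' <;>
    rcases key _ _ h₂ a₂ with c'' | c'' | c'' | c'' | c'' <;> omega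

theorem rd_pole : S_POLE := by
  classical
  intro G hfin hdt hirr
  have : Finite G := hfin
  have : Fintype G := Fintype.ofFinite G
  -- the two fixed points
  have fix2 : ∀ g : LI, g ∈ G → g ≠ 1 → ∀ p q : E, ‖p‖ = 1 → ‖q‖ = 1 → g p = p → g q = q →
      q = p ∨ q = -p := fun g hg hg1 p q hp hq hgp hgq => two_fixed g (hdt g hg) hg1 hp hq hgp hgq
  -- finitely many poles
  have hPfin : Finite (Pole G) := by
    have h1 : {p : E | ‖p‖ = 1 ∧ ∃ g ∈ G, g ≠ 1 ∧ g p = p}.Finite := by
      have h2 : {p : E | ‖p‖ = 1 ∧ ∃ g ∈ G, g ≠ 1 ∧ g p = p} ⊆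
          ⋃ g : G, {p : E | ‖p‖ = 1 ∧ (g : LI) ≠ 1 ∧ (g : LI) p = p} := by
        rintro p ⟨hp, g, hg, hg1, hgp⟩
        exact Set.mem_iUnion.2 ⟨⟨g, hg⟩, hp, hg1, hgp⟩
      refine (Set.finite_iUnion fun g : G => ?_).subset h2
      by_cases he : ∃ p : E, ‖p‖ = 1 ∧ (g : LI) ≠ 1 ∧ (g : LI) p = p
      · obtain ⟨p, hp, hg1, hgp⟩ := he
        refine (Set.toFinite {p, -p}).subset ?_
        rintro q ⟨hq, -, hgq⟩
        exact fix2 g g.2 hg1 p q hp hq hgp hgq
      · have h3 : {p : E | ‖p‖ = 1 ∧ (g : LI) ≠ 1 ∧ (g : LI) p = p} = ∅ := by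
          rw [Set.eq_empty_iff_forall_notMem]
          intro p hp
          exact he ⟨p, hp⟩
        rw [h3]
        exact Set.finite_empty
    exact h1.to_subtype
  have : Fintype (Pole G) := Fintype.ofFinite _
  have : Fintype (Quotient (MulAction.orbitRel G (Pole G))) := Fintype.ofFinite _
  -- fixed points
  have hfix : ∀ g : G, g ≠ 1 → Fintype.card (MulAction.fixedBy (Pole G) g) = 2 := by
    intro g hg
    have hg1 : (g : LI) ≠ 1 := fun h => hg (Subtype.ext h)
    obtain ⟨p, hp, hgp⟩ := axis g (hdt g g.2)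
    have hnp : ‖-p‖ = 1 := by rw [norm_neg]; exact hp
    have hgnp : (g : LI) (-p) = -p := by rw [map_neg, hgp]
    have hpp : p ≠ -p := by
      intro h0
      have h1 : p = 0 := by
        have h2 : (2 : ℝ) • p = 0 := by
          rw [two_smul]
          nth_rewrite 2 [h0]
          exact add_neg_cancel p
        exact (smul_eq_zero.1 h2).resolve_left (by norm_num)
      rw [h1, norm_zero] at hp
      exact zero_ne_one hp
    let P1 : Pole G := ⟨p, hp, g, g.2, hg1, hgp⟩
    let P2 : Pole G := ⟨-p, hnp, g, g.2, hg1, hgnp⟩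
    have hP : P1 ≠ P2 := fun h => hpp (congrArg Subtype.val h)
    have hset : MulAction.fixedBy (Pole G) g = {P1, P2} := by
      ext q
      rw [MulAction.mem_fixedBy, Set.mem_insert_iff, Set.mem_singleton_iff]
      constructor
      · intro h
        have h1 : (g : LI) q.1 = q.1 := by
          have := congrArg Subtype.val h
          rwa [smul_val] at this
        rcases fix2 g g.2 hg1 p q.1 hp q.2.1 hgp h1 with h2 | h2
        · exact Or.inl (Subtype.ext h2)
        · exact Or.inr (Subtype.ext h2)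
      · rintro (h | h)
        · rw [h]; exact Subtype.ext hgp
        · rw [h]; exact Subtype.ext hgnp
    rw [← Nat.card_eq_fintype_card]
    have h5 : Nat.card (MulAction.fixedBy (Pole G) g) = (({P1, P2} : Set (Pole G))).ncard := by
      rw [hset]; rfl
    rw [h5, Set.ncard_pair hP]
  have hone : Fintype.card (MulAction.fixedBy (Pole G) (1 : G)) = Fintype.card (Pole G) := by
    have h1 : MulAction.fixedBy (Pole G) (1 : G) = Set.univ := by
      ext q
      simp
    rw [← Nat.card_eq_fintype_card, h1, Nat.card_eq_fintype_card (α := Pole G) |>.symm]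
    exact Nat.card_congr (Equiv.Set.univ _)
  set N := Fintype.card G with hN
  have hburn := MulAction.sum_card_fixedBy_eq_card_orbits_mul_card_group G (Pole G)
  have hclass := MulAction.card_eq_sum_card_group_div_card_stabilizer G (Pole G)
  have hsum : ∑ g : G, Fintype.card (MulAction.fixedBy (Pole G) g) =
      Fintype.card (Pole G) + 2 * (N - 1) := by
    rw [← Finset.add_sum_erase Finset.univ _ (Finset.mem_univ (1 : G)), hone,
      Finset.sum_congr rfl fun g hg => hfix g (Finset.ne_of_mem_erase hg), Finset.sum_const,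
      Finset.card_erase_of_mem (Finset.mem_univ _), Finset.card_univ, smul_eq_mul]
    ring
  rw [hsum] at hburn
  have hN2 : 2 ≤ N := by
    by_contra hlt
    have h1 : N = 1 := by
      have : 0 < N := Fintype.card_pos
      omega
    have h2 : ∀ g ∈ G, g = 1 := by
      intro g hg
      have h3 := Fintype.card_le_one_iff.1 (le_of_eq h1) ⟨g, hg⟩ 1
      exact congrArg Subtype.val h3
    obtain ⟨g, hg, hg1, -⟩ := hirr e2 (by
      intro h0
      have h4 := congrArg (fun v : E => v 2) h0
      simp [e2] at h4)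
    rw [h2 g hg] at hg1
    exact hg1 rfl
  -- the numbers
  have hdata : ∀ P : Pole G, Fintype.card (MulAction.stabilizer G P) *
      (N / Fintype.card (MulAction.stabilizer G P)) = N ∧
      2 ≤ Fintype.card (MulAction.stabilizer G P) ∧
      3 ≤ N / Fintype.card (MulAction.stabilizer G P) := by
    intro P
    have hdvd : Fintype.card (MulAction.stabilizer G P) ∣ N := by
      have := Subgroup.card_subgroup_dvd_card (MulAction.stabilizer G P)
      rwa [Nat.card_eq_fintype_card, Nat.card_eq_fintype_card] at this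
    have hmul := Nat.mul_div_cancel' hdvd
    obtain ⟨hP1, h, hh, hh1, hhP⟩ := P.2
    have hhs : (⟨h, hh⟩ : G) ∈ MulAction.stabilizer G P := Subtype.ext hhP
    have h2 : 2 ≤ Fintype.card (MulAction.stabilizer G P) := by
      have h3 : 1 < Fintype.card (MulAction.stabilizer G P) := by
        rw [Fintype.one_lt_card_iff]
        refine ⟨⟨⟨h, hh⟩, hhs⟩, 1, ?_⟩
        intro h0
        apply hh1
        exact congrArg (fun x : MulAction.stabilizer G P => ((x : G) : LI)) h0
      exact h3
    refine ⟨hmul, h2, ?_⟩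
    by_contra hlt
    have hidx : (MulAction.stabilizer G P).index =
        N / Fintype.card (MulAction.stabilizer G P) := by
      have h3 := (MulAction.stabilizer G P).card_mul_index
      rw [Nat.card_eq_fintype_card, Nat.card_eq_fintype_card] at h3
      have h4 : 0 < Fintype.card (MulAction.stabilizer G P) := by omega
      rw [← hN] at h3
      exact (Nat.div_eq_of_eq_mul_right h4 h3.symm).symm
    have hp0 : P.1 ≠ 0 := by
      intro h0
      rw [h0, norm_zero] at hP1
      exact zero_ne_one hP1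
    obtain ⟨g, hg, hg1, hg2⟩ := hirr P.1 hp0
    have hpos : N / Fintype.card (MulAction.stabilizer G P) ≠ 0 := by
      intro h0
      rw [h0, mul_zero] at hmul
      omega
    have hcases : (MulAction.stabilizer G P).index = 1 ∨ (MulAction.stabilizer G P).index = 2 := by
      omega
    rcases hcases with h3 | h3
    · rw [Subgroup.index_eq_one] at h3
      have h4 : (⟨g, hg⟩ : G) ∈ MulAction.stabilizer G P := by rw [h3]; exact Subgroup.mem_top _
      have h5 : (⟨g, hg⟩ : G) • P = P := MulAction.mem_stabilizer_iff.1 h4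
      exact hg1 (congrArg Subtype.val h5)
    · have hnorm := Subgroup.normal_of_index_eq_two h3
      have h4 := hnorm.conj_mem ⟨h, hh⟩ hhs (⟨g, hg⟩ : G)⁻¹
      rw [inv_inv] at h4
      have h5 : ((⟨g, hg⟩ : G)⁻¹ * ⟨h, hh⟩ * ⟨g, hg⟩) • P = P := MulAction.mem_stabilizer_iff.1 h4
      have h6 : g⁻¹ (h (g P.1)) = P.1 := congrArg Subtype.val h5
      have h7 : h (g P.1) = g P.1 := by
        have h8 := congrArg g h6
        have h9 : g (g⁻¹ (h (g P.1))) = h (g P.1) := LinearIsometryEquiv.apply_symm_apply g _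
        rwa [h9] at h8
      rcases fix2 h hh hh1 P.1 (g P.1) hP1 (by rw [LinearIsometryEquiv.norm_map]; exact hP1)
        hhP h7 with h8 | h8
      · exact hg1 h8
      · exact hg2 h8
  -- the number of orbits is three
  set k := Fintype.card (Quotient (MulAction.orbitRel G (Pole G))) with hk
  have hlow : 3 * k ≤ Fintype.card (Pole G) := by
    rw [hclass]
    calc 3 * k = ∑ _ω : Quotient (MulAction.orbitRel G (Pole G)), 3 := by
          rw [Finset.sum_const, Finset.card_univ, smul_eq_mul, mul_comm]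
      _ ≤ _ := Finset.sum_le_sum fun ω _ => (hdata _).2.2
  have hupp : 2 * Fintype.card (Pole G) ≤ k * N := by
    rw [hclass, Finset.mul_sum]
    calc ∑ ω : Quotient (MulAction.orbitRel G (Pole G)),
          2 * (N / Fintype.card (MulAction.stabilizer G ω.out)) ≤
          ∑ _ω : Quotient (MulAction.orbitRel G (Pole G)), N := by
          refine Finset.sum_le_sum fun ω _ => ?_
          obtain ⟨h1, h2, -⟩ := hdata ω.out
          calc 2 * (N / Fintype.card (MulAction.stabilizer G ω.out)) ≤ _ :=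
                Nat.mul_le_mul_right _ h2
            _ = N := h1
      _ = k * N := by rw [Finset.sum_const, Finset.card_univ, smul_eq_mul]
  have hk3 : k = 3 := by
    have h1 : Fintype.card (Pole G) + 2 * (N - 1) = k * N := hburn
    have h2 : k < 4 := by
      by_contra h3
      push Not at h3
      have h4 : 4 * N ≤ k * N := Nat.mul_le_mul_right N h3
      omega
    have h3 : k = 0 ∨ k = 1 ∨ k = 2 ∨ k = 3 := by omega
    rcases h3 with h3 | h3 | h3 | h3
    · rw [h3] at h1 hlow hupp
      omega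
    · rw [h3] at h1 hlow hupp
      omega
    · rw [h3] at h1 hlow hupp
      omega
    · exact h3
  obtain ⟨e⟩ : Nonempty (Quotient (MulAction.orbitRel G (Pole G)) ≃ Fin 3) :=
    ⟨Fintype.equivFinOfCardEq hk3⟩
  have hclass3 : Fintype.card (Pole G) =
      N / Fintype.card (MulAction.stabilizer G (e.symm 0).out) +
      N / Fintype.card (MulAction.stabilizer G (e.symm 1).out) +
      N / Fintype.card (MulAction.stabilizer G (e.symm 2).out) := by
    rw [hclass, ← Equiv.sum_comp e.symm, Fin.sum_univ_three]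
  have hb : Fintype.card (Pole G) + 2 * (N - 1) = k * N := hburn
  rw [hk3] at hb
  have hfinal := arith N _ _ _ _ _ _ (hdata (e.symm 0).out).1 (hdata (e.symm 1).out).1
    (hdata (e.symm 2).out).1 (hdata (e.symm 0).out).2.1 (hdata (e.symm 1).out).2.1
    (hdata (e.symm 2).out).2.1 (hdata (e.symm 0).out).2.2 (hdata (e.symm 1).out).2.2
    (hdata (e.symm 2).out).2.2 (by omega)
  -- the stabilisers
  have hst : ∀ P : Pole G, Nat.card {g : LI // g ∈ G ∧ g P.1 = P.1} =
      Fintype.card (MulAction.stabilizer G P) := by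
    intro P
    rw [← Nat.card_eq_fintype_card]
    have hmem : ∀ g : G, g ∈ MulAction.stabilizer G P ↔ (g : LI) P.1 = P.1 := by
      intro g
      constructor
      · intro h1
        have h2 : g • P = P := MulAction.mem_stabilizer_iff.1 h1
        exact congrArg Subtype.val h2
      · intro h1
        exact MulAction.mem_stabilizer_iff.2 (Subtype.ext h1)
    refine Nat.card_congr ⟨fun g => ⟨⟨g.1, g.2.1⟩, (hmem _).2 g.2.2⟩,
      fun g => ⟨(g.1 : LI), g.1.2, (hmem _).1 g.2⟩, fun g => rfl, fun g => rfl⟩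
  rw [Nat.card_eq_fintype_card]
  rcases hfinal with h | ⟨h, h'⟩ | ⟨h, h'⟩
  · exact Or.inl h
  · right; left
    refine ⟨h, ?_⟩
    rcases h' with h' | h' | h'
    · exact ⟨(e.symm 0).out.1, (e.symm 0).out.2.1, by rw [hst, h']⟩
    · exact ⟨(e.symm 1).out.1, (e.symm 1).out.2.1, by rw [hst, h']⟩
    · exact ⟨(e.symm 2).out.1, (e.symm 2).out.2.1, by rw [hst, h']⟩
  · right; right
    refine ⟨h, ?_⟩
    rcases h' with h' | h' | h'
    · exact ⟨(e.symm 0).out.1, (e.symm 0).out.2.1, by rw [hst, h']⟩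
    · exact ⟨(e.symm 1).out.1, (e.symm 1).out.2.1, by rw [hst, h']⟩
    · exact ⟨(e.symm 2).out.1, (e.symm 2).out.2.1, by rw [hst, h']⟩

end Pool.Agent.H358.RDPole
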