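import Pool.Agent.H724.WE.SFStm

namespace H358.WE

open Finset H724.WE
open scoped Classical

variable {V ι : Type} (G : SF V ι)

lemma other_mem_K [Fintype V] {d f : Dart ι} (hd : G.val d) (hf : G.val f) (hne : d ≠ f)
    (h : G.tl f = G.tl d) (hd' : ¬ G.light d) (hf' : ¬ G.light f) : G.tl d ∈ G.K := by
  unfold SF.K
  rw [Finset.mem_filter]
  exact ⟨Finset.mem_univ _, Or.inr ⟨d, f, hd, hf, hne, rfl, h, hd', hf'⟩⟩

lemma Z_sub_K [Fintype V] : G.Z ⊆ G.K := by
  intro v hv
  unfold SF.K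
  rw [Finset.mem_filter]
  exact ⟨Finset.mem_univ _, Or.inl hv⟩

lemma tl_mem_K [Fintype V] {d : Dart ι} (h : G.core d) : G.tl d ∈ G.K := by
  obtain ⟨hv, hh, hr⟩ := h
  have hr' := hr
  unfold SF.light at hr'
  push Not at hr'
  obtain ⟨x, hx, hxZ⟩ := hr'
  rcases G.far_cases hx with h1 | ⟨f, hf, hne, htl, hxf⟩
  · apply Z_sub_K
    rw [h1] at hxZ
    simpa using hxZ
  · have hfh : ¬ G.light f := fun hl => hl x hxf hxZ
    refine other_mem_K G hv hf ?_ (by simpa using htl) hh hfh
    rintro rfl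
    apply hne
    simp

lemma hd_mem_K [Fintype V] {d : Dart ι} (h : G.core d) : G.hd d ∈ G.K := by
  have := tl_mem_K G (G.core_rev.2 h)
  simpa using this

lemma ed_ne {d g : Dart ι} (hd : G.val d) (hne : g ≠ d) (htl : G.tl g = G.tl d) :
    ed g ≠ ed d := by
  intro he
  rcases eq_or_eq_rev he.symm with h | h
  · exact hne h
  · rw [h, G.tl_rev] at htl
    exact G.tl_not_mem_far hd (htl ▸ G.hd_mem_far d)

lemma core_of_heavy [Fintype V] {d : Dart ι} (hd : G.val d) (hh : ¬ G.light d)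
    (hK : G.tl d ∈ G.K) : G.core d := by
  refine ⟨hd, hh, ?_⟩
  unfold SF.K at hK
  rw [Finset.mem_filter] at hK
  have main : ∀ g : Dart ι, G.val g → g ≠ d → G.tl g = G.tl d → ¬ G.light g →
      ¬ G.light (rev d) := by
    intro g hg hne htl hgh hl
    have he := ed_ne G hd hne htl
    have hn := G.nest (d := rev d) (f := g) hd hg (by simpa using he)
      (by rw [htl, ← G.hd_rev]; exact G.hd_mem_far _)
      (by rw [G.hd_rev, ← htl]; exact G.tl_not_mem_far hg)
    exact hgh fun x hx => hl x (hn.1 hx)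
  rcases hK.2 with hZ | ⟨d₁, f₁, hd₁, hf₁, hne, ht₁, ht₂, hh₁, hh₂⟩
  · intro hl
    exact hl (G.tl d) (by rw [← G.hd_rev]; exact G.hd_mem_far _) hZ
  · by_cases h : d₁ = d
    · exact main f₁ hf₁ (by rintro rfl; exact hne h) ht₂ hh₂
    · exact main d₁ hd₁ h ht₁ hh₁

/-- core darts -/
noncomputable def DD [Fintype ι] : Finset (Dart ι) := G.darts.filter (fun d => G.core d)

lemma mem_DD [Fintype ι] {d : Dart ι} : d ∈ DD G ↔ G.core d := by
  unfold DD
  rw [Finset.mem_filter, G.mem_darts]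
  exact ⟨fun h => h.2, fun h => ⟨h.1, h⟩⟩

/-- number of core darts with tail `v` -/
noncomputable def kk [Fintype ι] (v : V) : ℕ := ((DD G).filter (fun d => G.tl d = v)).card

lemma kk_two [Fintype V] [Fintype ι] {v : V} (hv : v ∈ G.K) (hZ : v ∉ G.Z) : 2 ≤ kk G v := by
  have hv' := hv
  unfold SF.K at hv'
  rw [Finset.mem_filter] at hv'
  rcases hv'.2 with h | ⟨d, f, hd, hf, hne, ht₁, ht₂, hh₁, hh₂⟩
  · exact absurd h hZ
  · have h1 : G.core d := core_of_heavy G hd hh₁ (by rw [ht₁]; exact hv)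
    have h2 : G.core f := core_of_heavy G hf hh₂ (by rw [ht₂]; exact hv)
    have hsub : ({d, f} : Finset (Dart ι)) ⊆ (DD G).filter (fun d => G.tl d = v) := by
      intro x hx
      rw [Finset.mem_insert, Finset.mem_singleton] at hx
      rcases hx with rfl | rfl
      · exact Finset.mem_filter.2 ⟨(mem_DD G).2 h1, ht₁⟩
      · exact Finset.mem_filter.2 ⟨(mem_DD G).2 h2, ht₂⟩
    have := Finset.card_le_card hsub
    rw [Finset.card_pair hne] at this
    exact this

lemma nx_exists [Fintype V] [Fintype ι] {d : Dart ι} (hd : G.core d) (hZ : G.hd d ∉ G.Z)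
    (hk : kk G (G.hd d) = 2) : ∃ f, G.Nx d f := by
  have hrc : G.core (rev d) := G.core_rev.2 hd
  have hmem : rev d ∈ (DD G).filter (fun f => G.tl f = G.hd d) :=
    Finset.mem_filter.2 ⟨(mem_DD G).2 hrc, G.tl_rev d⟩
  have hcard : (((DD G).filter (fun f => G.tl f = G.hd d)).erase (rev d)).card = 1 := by
    rw [Finset.card_erase_of_mem hmem]
    unfold kk at hk
    rw [hk]
  obtain ⟨f, hf⟩ := Finset.card_eq_one.1 hcard
  have hfm : f ∈ ((DD G).filter (fun f => G.tl f = G.hd d)).erase (rev d) := by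
    rw [hf]; exact Finset.mem_singleton_self f
  rw [Finset.mem_erase, Finset.mem_filter, mem_DD] at hfm
  refine ⟨f, hd, hfm.2.1, hfm.2.2, hfm.1, hZ, ?_⟩
  intro g hg htl hgh
  have hgc : G.core g := core_of_heavy G hg hgh (by rw [htl]; exact hd_mem_K G hd)
  by_cases hgr : g = rev d
  · exact Or.inr hgr
  · left
    have : g ∈ ((DD G).filter (fun f => G.tl f = G.hd d)).erase (rev d) := by
      rw [Finset.mem_erase, Finset.mem_filter, mem_DD]
      exact ⟨hgr, hgc, htl⟩
    rw [hf] at this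
    exact Finset.mem_singleton.1 this

lemma nx_inj {d d' f : Dart ι} (h : G.Nx d f) (h' : G.Nx d' f) : d = d' := by
  obtain ⟨_, _, htl, _, _, hall⟩ := h
  obtain ⟨hc', _, htl', hne', _, _⟩ := h'
  have h1 := hall (rev d') hc'.1 (by rw [G.tl_rev, ← htl', htl]) hc'.2.2
  rcases h1 with h1 | h1
  · exact absurd h1.symm hne'
  · have := congrArg rev h1
    simpa using this.symm

lemma nxI_inj : ∀ (j : ℕ) {d d' f : Dart ι}, G.NxI j d f → G.NxI j d' f → d = d' := by
  intro j
  induction j with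
  | zero =>
    intro d d' f h h'
    have h1 : d = f := h
    have h2 : d' = f := h'
    rw [h1, h2]
  | succ j ih =>
    intro d d' f h h'
    obtain ⟨g, hg, hgf⟩ := h
    obtain ⟨g', hg', hgf'⟩ := h'
    have := nx_inj G hgf hgf'
    subst this
    exact ih hg hg'

/-- vertices of core degree two -/
noncomputable def K2 [Fintype V] [Fintype ι] : Finset V :=
  G.K.filter (fun v => v ∉ G.Z ∧ kk G v = 2)

lemma term_exists [Fintype V] [Fintype ι] (m' : ℕ)
    (hch : ∀ (d : ℕ → Dart ι) (m : ℕ), G.IsChain d m → m + 1 ≤ m') {d : Dart ι}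
    (hd : G.core d) : ∃ j < m', ∃ f, G.NxI j d f ∧ G.core f ∧ G.hd f ∉ K2 G := by
  let nx : Dart ι → Dart ι := fun d => if h : ∃ f, G.Nx d f then h.choose else d
  have hnx : ∀ d, G.core d → G.hd d ∈ K2 G → G.Nx d (nx d) := by
    intro d hd h2
    unfold K2 at h2
    rw [Finset.mem_filter] at h2
    have h := nx_exists G hd h2.2.1 h2.2.2
    have : nx d = h.choose := dif_pos h
    rw [this]
    exact h.choose_spec
  let D : ℕ → Dart ι := fun j => nx^[j] d
  have hDs : ∀ j, D (j + 1) = nx (D j) := fun j => Function.iterate_succ_apply' nx j d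
  have key : ∀ j, (∀ i < j, G.hd (D i) ∈ K2 G) → G.core (D j) ∧ G.NxI j d (D j) := by
    intro j
    induction j with
    | zero => intro _; exact ⟨hd, rfl⟩
    | succ j ih =>
      intro h
      obtain ⟨h1, h2⟩ := ih fun i hi => h i (Nat.lt_succ_of_lt hi)
      have h3 := hnx (D j) h1 (h j (Nat.lt_succ_self j))
      rw [hDs]
      exact ⟨h3.2.1, ⟨D j, h2, h3⟩⟩
  have hex : ∃ j, j < m' ∧ G.hd (D j) ∉ K2 G := by
    by_contra hcon
    push Not at hcon
    have hchain : G.IsChain D m' := by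
      intro q hq
      have h1 := (key q fun i hi => hcon i (hi.trans hq)).1
      rw [hDs]
      exact hnx _ h1 (hcon q hq)
    have := hch D m' hchain
    omega
  have hmin := Nat.find_spec hex
  refine ⟨Nat.find hex, hmin.1, D (Nat.find hex), ?_⟩
  have h1 := key (Nat.find hex) (by
    intro i hi
    by_contra hc
    exact Nat.find_min hex hi ⟨hi.trans hmin.1, hc⟩)
  exact ⟨h1.2, h1.1, hmin.2⟩

/-- terminal darts -/
noncomputable def Tm [Fintype V] [Fintype ι] : Finset (Dart ι) :=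
  (DD G).filter (fun d => G.hd d ∉ K2 G)

lemma card_DD_le [Fintype V] [Fintype ι] (m' : ℕ)
    (hch : ∀ (d : ℕ → Dart ι) (m : ℕ), G.IsChain d m → m + 1 ≤ m') :
    (DD G).card ≤ m' * (Tm G).card := by
  have h : ∀ d : Dart ι, ∃ p : ℕ × Dart ι, G.core d → p.1 < m' ∧ G.NxI p.1 d p.2 ∧
      G.core p.2 ∧ G.hd p.2 ∉ K2 G := by
    intro d
    by_cases hd : G.core d
    · obtain ⟨j, hj, f, h1, h2, h3⟩ := term_exists G m' hch hd
      exact ⟨(j, f), fun _ => ⟨hj, h1, h2, h3⟩⟩
    · exact ⟨(0, d), fun h => absurd h hd⟩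
  choose φ hφ using h
  have h1 : (DD G).card ≤ (Finset.range m' ×ˢ Tm G).card := by
    refine Finset.card_le_card_of_injOn φ ?_ ?_
    · intro d hd
      have hd' := (mem_DD G).1 (Finset.mem_coe.1 hd)
      obtain ⟨a, _, b, c⟩ := hφ d hd'
      rw [Finset.mem_coe, Finset.mem_product, Finset.mem_range]
      exact ⟨a, Finset.mem_filter.2 ⟨(mem_DD G).2 b, c⟩⟩
    · intro d hd d' hd' he
      have h1 := hφ d ((mem_DD G).1 (Finset.mem_coe.1 hd))
      have h2 := hφ d' ((mem_DD G).1 (Finset.mem_coe.1 hd'))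
      rw [← he] at h2
      exact nxI_inj G _ h1.2.1 h2.2.1
  rwa [Finset.card_product, Finset.card_range] at h1

lemma card_Tm [Fintype V] [Fintype ι] :
    (Tm G).card = ∑ v ∈ G.K.filter (fun v => v ∉ K2 G), kk G v := by
  have h1 : (Tm G).card = ((DD G).filter (fun d => G.tl d ∉ K2 G)).card := by
    refine Finset.card_bij' (fun d _ => rev d) (fun d _ => rev d) ?_ ?_ ?_ ?_
    · intro d hd
      unfold Tm at hd
      rw [Finset.mem_filter, mem_DD] at hd
      rw [Finset.mem_filter, mem_DD, G.core_rev, G.tl_rev]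
      exact hd
    · intro d hd
      rw [Finset.mem_filter, mem_DD] at hd
      unfold Tm
      rw [Finset.mem_filter, mem_DD, G.core_rev, G.hd_rev]
      exact hd
    · intro d _; exact rev_rev d
    · intro d _; exact rev_rev d
  rw [h1]
  have hmap : ∀ d ∈ (DD G).filter (fun d => G.tl d ∉ K2 G),
      G.tl d ∈ G.K.filter (fun v => v ∉ K2 G) := by
    intro d hd
    rw [Finset.mem_filter, mem_DD] at hd
    exact Finset.mem_filter.2 ⟨tl_mem_K G hd.1, hd.2⟩
  rw [Finset.card_eq_sum_card_fiberwise hmap]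
  refine Finset.sum_congr rfl fun v hv => ?_
  unfold kk
  congr 1
  ext d
  rw [Finset.mem_filter, Finset.mem_filter, Finset.mem_filter]
  constructor
  · rintro ⟨⟨a, _⟩, c⟩; exact ⟨a, c⟩
  · rintro ⟨a, c⟩; exact ⟨⟨a, by rw [c]; exact (Finset.mem_filter.1 hv).2⟩, c⟩

lemma card_DD_sum [Fintype V] [Fintype ι] : (DD G).card = ∑ v ∈ G.K, kk G v := by
  have hmap : ∀ d ∈ DD G, G.tl d ∈ G.K := fun d hd => tl_mem_K G ((mem_DD G).1 hd)
  rw [Finset.card_eq_sum_card_fiberwise hmap]
  rfl

lemma card_DD_le_two [Fintype V] [Fintype ι] (hF : S_forestCard) :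
    (DD G).card ≤ 2 * G.K.card := by
  have h1 : (DD G).card ≤ 2 * ((DD G).image ed).card := by
    refine Finset.card_le_mul_card_image _ 2 ?_
    intro e he
    rw [Finset.mem_image] at he
    obtain ⟨d, _, rfl⟩ := he
    have hsub : (DD G).filter (fun f => ed f = ed d) ⊆ {d, rev d} := by
      intro f hf
      rw [Finset.mem_filter] at hf
      rw [Finset.mem_insert, Finset.mem_singleton]
      exact eq_or_eq_rev hf.2.symm
    exact (Finset.card_le_card hsub).trans (Finset.card_le_two)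
  have h2 : ((DD G).image ed).card ≤ G.K.card := by
    refine hF V (ι × ℕ) (fun e => G.pt false e.1 e.2) (fun e => G.pt true e.1 e.2) _ _ ?_ ?_
    · intro e he
      rw [Finset.mem_image] at he
      obtain ⟨d, hd, rfl⟩ := he
      have hc := (mem_DD G).1 hd
      rcases d with ⟨i, o, s⟩
      cases s
      · exact ⟨hd_mem_K G hc, tl_mem_K G hc⟩
      · exact ⟨tl_mem_K G hc, hd_mem_K G hc⟩
    · intro e he
      have hval : ∀ e ∈ (DD G).image ed, e ∈ G.E := by
        intro e he
        rw [Finset.mem_image] at he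
        obtain ⟨d, hd, rfl⟩ := he
        exact ((mem_DD G).1 hd).1
      have hve := hval e he
      intro hC
      refine G.forest e.1 e.2 hve.1 hve.2 (Conn.mono ?_ hC)
      rintro x ⟨hx1, hx2⟩
      exact ⟨hval x (Finset.mem_coe.1 hx1), hx2⟩
  omega

theorem core : S_core := by
  intro V ι _ _ G m' hF hch
  have h1 := card_DD_le G m' hch
  have h2 := card_DD_le_two G hF
  have h3 := card_DD_sum G
  have h4 := card_Tm G
  -- split `K`
  set A := G.K.filter (fun v => v ∉ K2 G) with hA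
  have hsplit : ∑ v ∈ G.K, kk G v = ∑ v ∈ K2 G, kk G v + ∑ v ∈ A, kk G v := by
    rw [← Finset.sum_filter_add_sum_filter_not G.K (fun v => v ∈ K2 G)]
    congr 1
    refine Finset.sum_congr ?_ fun _ _ => rfl
    ext v
    rw [Finset.mem_filter]
    exact ⟨fun h => h.2, fun h => ⟨(Finset.mem_filter.1 h).1, h⟩⟩
  have hK2 : ∑ v ∈ K2 G, kk G v = 2 * (K2 G).card := by
    rw [Finset.sum_congr rfl (g := fun _ => 2) (fun v hv => (Finset.mem_filter.1 hv).2.2)]
    rw [Finset.sum_const, smul_eq_mul, mul_comm]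
  have hcardK : G.K.card = (K2 G).card + A.card := by
    rw [← Finset.card_filter_add_card_filter_not (s := G.K) (fun v => v ∈ K2 G)]
    congr 2
    ext v
    rw [Finset.mem_filter]
    exact ⟨fun h => h.2, fun h => ⟨(Finset.mem_filter.1 h).1, h⟩⟩
  have hAZ : A.card = G.Z.card + (A.filter (fun v => v ∉ G.Z)).card := by
    rw [← Finset.card_filter_add_card_filter_not (s := A) (fun v => v ∈ G.Z)]
    congr 2
    ext v
    rw [Finset.mem_filter]
    constructor
    · exact fun h => h.2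
    · intro h
      refine ⟨Finset.mem_filter.2 ⟨Z_sub_K G h, ?_⟩, h⟩
      intro h2
      exact (Finset.mem_filter.1 h2).2.1 h
  have hA3 : 3 * (A.filter (fun v => v ∉ G.Z)).card ≤ ∑ v ∈ A, kk G v := by
    calc 3 * (A.filter (fun v => v ∉ G.Z)).card
        = ∑ v ∈ A.filter (fun v => v ∉ G.Z), 3 := by
          rw [Finset.sum_const, smul_eq_mul, mul_comm]
      _ ≤ ∑ v ∈ A.filter (fun v => v ∉ G.Z), kk G v := by
          refine Finset.sum_le_sum fun v hv => ?_
          rw [Finset.mem_filter, hA, Finset.mem_filter] at hv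
          obtain ⟨⟨hvK, hv2⟩, hvZ⟩ := hv
          have h5 := kk_two G hvK hvZ
          by_contra hc
          apply hv2
          unfold K2
          exact Finset.mem_filter.2 ⟨hvK, hvZ, by omega⟩
      _ ≤ ∑ v ∈ A, kk G v :=
          Finset.sum_le_sum_of_subset_of_nonneg (Finset.filter_subset _ _) fun _ _ _ => Nat.zero_le _
  set a := (K2 G).card
  set b := (A.filter (fun v => v ∉ G.Z)).card
  set z := G.Z.card
  set τ := ∑ v ∈ A, kk G v
  rw [h4] at h1
  have hτ : τ ≤ 6 * z := by omega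
  have h6 : 2 * (a + b) ≤ m' * (6 * z) := by
    have : m' * τ ≤ m' * (6 * z) := Nat.mul_le_mul le_rfl hτ
    omega
  have h7 : m' * (6 * z) = 2 * (3 * m' * z) := by ring
  have h8 : (1 + 3 * m') * z = z + 3 * m' * z := by ring
  rw [h8]
  omega

end H358.WE
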