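import Pool.Agent.H724.WE.WStm

namespace H358.WE

open Finset H724.WE
open scoped Classical

namespace Kr

variable {n : ℕ}

/-- edges of higher priority than `e` -/
def Hi (m : Fin n → ℕ) (e : Fin n × ℕ) : Set (Fin n × ℕ) :=
  {x | x.2 ≤ m x.1 ∧ (e.2 < x.2 ∨ (x.2 = e.2 ∧ x.1 < e.1))}

/-- rejected edges -/
def Rej (a b m : Fin n → ℕ) (e : Fin n × ℕ) : Prop :=
  Conn (sa a) (sa b) (Hi m e) (sa a e) (sa b e)

lemma rej_down (a b m : Fin n → ℕ) {i : Fin n} {o : ℕ} (h : Rej a b m (i, o + 1)) :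
    Rej a b m (i, o) := by
  unfold Rej at h ⊢
  have h1 := Conn.map (src' := sa a) (dst' := sa b) (T := Hi m (i, o)) (fun x => x - 1) (by
    rintro ⟨j, p⟩ ⟨hp, hp'⟩
    obtain ⟨p, rfl⟩ : ∃ q, p = q + 1 := by
      refine ⟨p - 1, ?_⟩
      simp only at hp hp'
      omega
    have hmem : (j, p) ∈ Hi m (i, o) := by
      simp only [Hi, Set.mem_ofPred_eq] at hp hp' ⊢
      omega
    exact Conn.edge (src := sa a) (dst := sa b) hmem) h
  exact h1

/-- offset bound -/
noncomputable def Mx (m : Fin n → ℕ) : ℕ := Finset.univ.sup m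

lemma le_Mx (m : Fin n → ℕ) (i : Fin n) : m i ≤ Mx m := Finset.le_sup (Finset.mem_univ i)

/-- the priority as a natural number -/
noncomputable def mu (m : Fin n → ℕ) (e : Fin n × ℕ) : ℕ := (Mx m - e.2) * (n + 1) + e.1.val

lemma lexlt {N a b c d : ℕ} (hb : b < N) (hd : d < N) :
    a * N + b < c * N + d ↔ a < c ∨ (a = c ∧ b < d) := by
  rcases lt_trichotomy a c with h | h | h
  · have h1 : (a + 1) * N ≤ c * N := Nat.mul_le_mul_right N h
    rw [add_mul, one_mul] at h1
    exact ⟨fun _ => Or.inl h, fun _ => by omega⟩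
  · subst h
    constructor
    · intro h; right; exact ⟨rfl, by omega⟩
    · intro h; omega
  · have h1 : (c + 1) * N ≤ a * N := Nat.mul_le_mul_right N h
    rw [add_mul, one_mul] at h1
    constructor
    · intro h; omega
    · intro h; omega

lemma mem_Hi_iff (m : Fin n → ℕ) {x e : Fin n × ℕ} (hx : x.2 ≤ m x.1) (he : e.2 ≤ m e.1) :
    x ∈ Hi m e ↔ mu m x < mu m e := by
  have h1 := hx.trans (le_Mx m x.1)
  have h2 := he.trans (le_Mx m e.1)
  have h3 := x.1.isLt
  have h4 := e.1.isLt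
  unfold mu
  rw [lexlt (by omega) (by omega)]
  simp only [Hi, Set.mem_ofPred_eq, Fin.lt_def]
  omega

lemma mu_inj (m : Fin n → ℕ) {x e : Fin n × ℕ} (hx : x.2 ≤ m x.1) (he : e.2 ≤ m e.1)
    (h : mu m x = mu m e) : x = e := by
  have h1 := mem_Hi_iff m hx he
  have h2 := mem_Hi_iff m he hx
  have h3 : ¬ x ∈ Hi m e := by rw [h1]; omega
  have h4 : ¬ e ∈ Hi m x := by rw [h2]; omega
  simp only [Hi, Set.mem_ofPred_eq, Fin.lt_def] at h3 h4
  have h5 : x.2 = e.2 := by omega
  have h6 : x.1.val = e.1.val := by omega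
  exact Prod.ext (Fin.ext h6) h5

/-- kept edges -/
def Kp (a b m : Fin n → ℕ) : Set (Fin n × ℕ) := {e | e.2 ≤ m e.1 ∧ ¬ Rej a b m e}

lemma Hi_mono (m : Fin n → ℕ) {f e : Fin n × ℕ} (hf : f ∈ Hi m e) : Hi m f ⊆ Hi m e := by
  intro x hx
  simp only [Hi, Set.mem_ofPred_eq, Fin.lt_def] at hf hx ⊢
  omega

lemma conn_kept (a b m : Fin n → ℕ) : ∀ (t : ℕ) (e : Fin n × ℕ), e.2 ≤ m e.1 → mu m e = t →
    ∀ x y, Conn (sa a) (sa b) (Hi m e) x y → Conn (sa a) (sa b) (Kp a b m ∩ Hi m e) x y := by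
  intro t
  induction t using Nat.strong_induction_on with
  | _ t ih =>
    intro e he hmu x y hxy
    refine Conn.of_edges ?_ hxy
    intro f hf
    have hfm : f.2 ≤ m f.1 := hf.1
    by_cases hr : Rej a b m f
    · have h1 := ih (mu m f) (by rw [← hmu]; exact (mem_Hi_iff m hfm he).1 hf) f hfm rfl _ _ hr
      exact h1.mono fun z hz => ⟨hz.1, Hi_mono m hf hz.2⟩
    · exact Conn.edge ⟨⟨hfm, hr⟩, hf⟩

/-- kept edges of priority `< t` -/
def Kt (a b m : Fin n → ℕ) (t : ℕ) : Set (Fin n × ℕ) := {e | e ∈ Kp a b m ∧ mu m e < t}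

lemma forest_t (a b m : Fin n → ℕ) : ∀ (t : ℕ), ∀ e ∈ Kt a b m t,
    ¬ Conn (sa a) (sa b) (Kt a b m t \ {e}) (sa a e) (sa b e) := by
  intro t
  induction t with
  | zero => intro e he; exact absurd he.2 (Nat.not_lt_zero _)
  | succ t ih =>
    by_cases hex : ∃ f ∈ Kp a b m, mu m f = t
    · obtain ⟨f, hf, hft⟩ := hex
      have hKt : Kt a b m (t + 1) = insert f (Kt a b m t) := by
        ext x
        simp only [Kt, Set.mem_ofPred_eq, Set.mem_insert_iff]
        constructor
        · rintro ⟨h1, h2⟩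
          by_cases hx : mu m x = t
          · left; exact mu_inj m h1.1 hf.1 (by rw [hx, hft])
          · right; exact ⟨h1, by omega⟩
        · rintro (rfl | ⟨h1, h2⟩)
          · exact ⟨hf, by omega⟩
          · exact ⟨h1, by omega⟩
      have hsub : Kt a b m t ⊆ Hi m f := by
        intro x hx
        rw [mem_Hi_iff m hx.1.1 hf.1, hft]
        exact hx.2
      have hfc : ¬ Conn (sa a) (sa b) (Kt a b m t) (sa a f) (sa b f) :=
        fun h => hf.2 (h.mono hsub)
      intro e he hC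
      by_cases hef : e = f
      · subst hef
        refine hfc (hC.mono ?_)
        rintro x ⟨hx1, hx2⟩
        rw [hKt] at hx1
        exact hx1.resolve_left hx2
      · have he' : e ∈ Kt a b m t := by
          rw [hKt] at he
          exact he.resolve_left hef
        have hC' : Conn (sa a) (sa b) (insert f (Kt a b m t \ {e})) (sa a e) (sa b e) := by
          refine hC.mono ?_
          rintro x ⟨hx1, hx2⟩
          rw [hKt] at hx1
          rcases hx1 with h | h
          · exact Or.inl h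
          · exact Or.inr ⟨h, hx2⟩
        have hmono : Kt a b m t \ {e} ⊆ Kt a b m t := fun x hx => hx.1
        have hedge : Conn (sa a) (sa b) (Kt a b m t) (sa a e) (sa b e) := Conn.edge he'
        rcases Conn.insert_iff.1 hC' with h | ⟨h1, h2⟩ | ⟨h1, h2⟩
        · exact ih e he' h
        · exact hfc (((h1.mono hmono).symm.trans hedge).trans (h2.mono hmono).symm)
        · exact hfc (((h2.mono hmono).trans hedge.symm).trans (h1.mono hmono))
    · have hKt : Kt a b m (t + 1) = Kt a b m t := by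
        ext x
        simp only [Kt, Set.mem_ofPred_eq]
        constructor
        · rintro ⟨h1, h2⟩
          refine ⟨h1, ?_⟩
          by_contra hc
          exact hex ⟨x, h1, by omega⟩
        · rintro ⟨h1, h2⟩
          exact ⟨h1, by omega⟩
      rw [hKt]
      exact ih

lemma forest (a b m : Fin n → ℕ) (e : Fin n × ℕ) (he : e ∈ Kp a b m) :
    ¬ Conn (sa a) (sa b) (Kp a b m \ {e}) (sa a e) (sa b e) := by
  have hall : Kp a b m = Kt a b m (Mx m * (n + 1) + n + 1) := by
    ext x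
    simp only [Kt, Set.mem_ofPred_eq]
    refine ⟨fun h => ⟨h, ?_⟩, fun h => h.1⟩
    unfold mu
    have h1 : (Mx m - x.2) * (n + 1) ≤ Mx m * (n + 1) := Nat.mul_le_mul_right _ (Nat.sub_le _ _)
    have h2 := x.1.isLt
    omega
  have he' := he
  rw [hall] at he' ⊢
  exact forest_t a b m _ e he'

end Kr

open Kr in
theorem kruskal : S_kruskal := by
  intro n a b m
  have hex : ∀ i : Fin n, ∃ o, o = m i + 1 ∨ (o ≤ m i ∧ ¬ Rej a b m (i, o)) :=
    fun i => ⟨m i + 1, Or.inl rfl⟩
  let c : Fin n → ℕ := fun i => Nat.find (hex i)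
  have hc1 : ∀ i, c i ≤ m i + 1 := fun i => Nat.find_min' (hex i) (Or.inl rfl)
  have hc2 : ∀ i o, o < c i → o ≤ m i → Rej a b m (i, o) := by
    intro i o ho hom
    by_contra hc
    exact Nat.find_min (hex i) ho (Or.inr ⟨hom, hc⟩)
  have hc3 : ∀ i, c i ≤ m i → ¬ Rej a b m (i, c i) := by
    intro i hi
    rcases Nat.find_spec (hex i) with h | h
    · have : c i = m i + 1 := h
      omega
    · exact h.2
  have hc4 : ∀ i o, c i ≤ o → o ≤ m i → ¬ Rej a b m (i, o) := by
    intro i o ho hom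
    obtain ⟨k, rfl⟩ := Nat.exists_eq_add_of_le ho
    clear ho
    induction k with
    | zero => exact hc3 i hom
    | succ k ih =>
      intro hr
      exact ih (by omega) (rej_down a b m hr)
  have hK : {e : Fin n × ℕ | c e.1 ≤ e.2 ∧ e.2 ≤ m e.1} = Kp a b m := by
    ext ⟨i, o⟩
    simp only [Kp, Set.mem_ofPred_eq]
    constructor
    · rintro ⟨h1, h2⟩
      exact ⟨h2, hc4 i o h1 h2⟩
    · rintro ⟨h1, h2⟩
      refine ⟨?_, h1⟩
      by_contra hc
      exact h2 (hc2 i o (by omega) h1)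
  refine ⟨c, hc1, ?_, ?_⟩
  · intro i o h1 h2 hC
    rw [hK] at hC
    exact forest a b m (i, o) ⟨h2, hc4 i o h1 h2⟩ hC
  · intro i o h1 h2
    have h3 := conn_kept a b m _ (i, o) h2 rfl _ _ (hc2 i o h1 h2)
    refine Conn.mono ?_ h3
    rintro x ⟨hx1, hx2⟩
    rw [← hK] at hx1
    exact ⟨hx1.1, hx1.2, hx2.2⟩

end H358.WE
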